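import Mathlib

/-!
# Further targets for sections of fundamental groups of open curves
-/

set_option autoImplicit false

open IsDedekindDomain NumberField

namespace Pool.Agent.TH954.P

/-- **Target `loc`.** A nonzero element of the completion at `v` which is not a root of unity is not a
`p ^ k`-th power for large `k`, where `p` is the residue characteristic. -/
def T_loc : Prop := ∀ (K : Type) [Field K] [NumberField K] (v : HeightOneSpectrum (𝓞 K)),
  ∃ p : ℕ, p.Prime ∧ ∀ q : v.adicCompletion K, q ≠ 0 → (∀ m : ℕ, 1 ≤ m → q ^ m ≠ 1) →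
    ∃ k : ℕ, ∀ z : v.adicCompletion K, z ^ (p ^ k) ≠ q

/-- **Target `gal`.** The image of the Galois group in the cyclotomic Galois groups. -/
def T_gal : Prop := ∀ (K : Type) [Field K] [NumberField K], ∃ D : ℕ, 1 ≤ D ∧
  ∀ x N : ℕ, 1 ≤ N → Nat.Coprime x N → ∀ ζ : AlgebraicClosure K, IsPrimitiveRoot ζ N →
    ∃ τ : AlgebraicClosure K ≃ₐ[K] AlgebraicClosure K, τ ζ = ζ ^ (x ^ D)

/-- **Target `sah`.** Sah's lemma for roots of unity. -/
def T_sah : Prop := ∀ (K : Type) [Field K] [CharZero K] (N : ℕ), 1 ≤ N →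
  ∀ ζ : AlgebraicClosure K, IsPrimitiveRoot ζ N → ∀ (c : K) (r : AlgebraicClosure K), c ≠ 0 →
    r ^ N = algebraMap K (AlgebraicClosure K) c →
    (∀ σ : AlgebraicClosure K ≃ₐ[K] AlgebraicClosure K, σ ζ = ζ → σ r = r) →
    ∀ (τ : AlgebraicClosure K ≃ₐ[K] AlgebraicClosure K) (t : ℕ), τ ζ = ζ ^ (t + 1) →
      ∃ y : K, y ^ N = c ^ t

/-- **Target `sep2`.** Given finitely many pairwise incomparable valuation rings of `F` over `K`,
there is a function which is in all of them, whose residue class is in `K` only if the residue field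
is `K`, and which separates those with a residue class in `K`. -/
def T_sep2 : Prop := ∀ (K F : Type) [Field K] [CharZero K] [Field F] [Algebra K F]
  (Z : Finset (ValuationSubring F)), (∀ W ∈ Z, ∀ c : K, algebraMap K F c ∈ W) →
  (∀ W ∈ Z, ∀ W' ∈ Z, W ≤ W' → W = W') →
  ∃ u : F, (∀ W ∈ Z, u ∈ W ∧
    ((∃ c : K, W.valuation (u - algebraMap K F c) < 1) →
      ∀ a ∈ W, ∃ c : K, W.valuation (a - algebraMap K F c) < 1)) ∧
    ∀ W ∈ Z, ∀ W' ∈ Z, ∀ c : K, W.valuation (u - algebraMap K F c) < 1 →
      W'.valuation (u - algebraMap K F c) < 1 → W = W'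

/-- **Target `inc`.** The zeros of a function of a function field of one variable are
incomparable. -/
def T_inc : Prop := ∀ (K F : Type) [Field K] [CharZero K] [Field F] [Algebra K F] (w : F),
  Transcendental K w → Algebra.IsAlgebraic (IntermediateField.adjoin K {w}) F →
  ∀ W W' : ValuationSubring F, (∀ c : K, algebraMap K F c ∈ W) → W.valuation w < 1 →
    W'.valuation w < 1 → W ≤ W' → W = W'

end Pool.Agent.TH954.P
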