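import Pool.Agent.TH954.SObs
import Pool.Agent.TH954.P.Stmts2

/-!
# Local and global powers
-/

set_option autoImplicit false
set_option linter.unusedSectionVars false

open IsDedekindDomain NumberField Pool.Agent.W401.Cheb

namespace Pool.Agent.TH954.P

open Pool.Agent.TH954

variable {K : Type} [Field K] [NumberField K]

/-- **Chebotarev for radicals**, integral elements. -/
theorem cheb_pow_int {N : ℕ} (hN : 1 ≤ N) {ζ : AlgebraicClosure K} (hζ : IsPrimitiveRoot ζ N)
    (σ : AlgebraicClosure K ≃ₐ[K] AlgebraicClosure K) (hσ : σ ζ = ζ)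
    {ι : Type} [Fintype ι] (c : ι → 𝓞 K) (hc : ∀ i, c i ≠ 0) (r : ι → AlgebraicClosure K)
    (hr : ∀ i, r i ^ N = algebraMap K (AlgebraicClosure K) (c i : K)) :
    ∃ v : HeightOneSpectrum (𝓞 K), ∀ i, (∃ z : v.adicCompletion K, z ^ N = toLoc v (c i)) →
      σ (r i) = r i := by
  classical
  have hN0 : N ≠ 0 := by omega
  obtain ⟨L', _, _, _, i', τ, κ', hκi', hκτ, hκs'⟩ := Pool.Agent.TH120.Sec.exists_L K
    ((insert ζ (Finset.univ.image r) : Finset (AlgebraicClosure K)) : Set (AlgebraicClosure K))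
    (Finset.finite_toSet _) σ
  have hcint : ∀ i, IsIntegral ℤ (algebraMap K (AlgebraicClosure K) (c i : K)) := fun i =>
    (c i).2.map (IsScalarTower.toAlgHom ℤ K (AlgebraicClosure K))
  have hrint : ∀ i, IsIntegral ℤ (r i) := fun i =>
    IsIntegral.of_pow (by omega : 0 < N) (by rw [hr]; exact hcint i)
  have hRex : ∀ i, ∃ s : 𝓞 L', κ' s = r i := fun i =>
    exists_int_preimage κ' (hrint i) (hκs' _ (Finset.mem_coe.2 (Finset.mem_insert_of_mem
      (Finset.mem_image_of_mem r (Finset.mem_univ i)))))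
  choose R hR using hRex
  obtain ⟨Z, hZ⟩ := exists_int_preimage κ' (x := ζ) (IsIntegral.of_pow (by omega : 0 < N) (by
    rw [hζ.pow_eq_one]; exact isIntegral_one)) (hκs' _ (Finset.mem_coe.2
      (Finset.mem_insert_self _ _)))
  set iO : 𝓞 K →+* 𝓞 L' := RingOfIntegers.mapRingHom i' with hiO
  have hiOc : ∀ x : 𝓞 K, κ' (iO x : L') = algebraMap K (AlgebraicClosure K) (x : K) :=
    fun x => hκi' x
  have hcr0 : ∀ i, r i ≠ 0 := by
    intro i h0
    have h1 := hr i
    rw [h0, zero_pow hN0] at h1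
    exact hc i (RingOfIntegers.coe_injective (by
      rw [map_zero]
      exact (map_eq_zero (algebraMap K (AlgebraicClosure K))).1 h1.symm))
  have hR0 : ∀ i, R i ≠ 0 := by
    intro i h0
    apply hcr0 i
    rw [← hR i, h0]
    simp
  have hcO : ∀ i, iO (c i) ≠ 0 := by
    intro i h0
    apply hc i
    apply RingOfIntegers.coe_injective
    have := hiOc (c i)
    rw [h0] at this
    rw [map_zero]
    apply (map_eq_zero (algebraMap K (AlgebraicClosure K))).1
    rw [← this]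
    simp
  have hRN : ∀ i, R i ^ N = iO (c i) := by
    intro i
    apply RingOfIntegers.coe_injective
    apply κ'.injective
    rw [map_pow, map_pow, hR i, hr, hiOc]
  have hZN : Z ^ N = 1 := by
    apply RingOfIntegers.coe_injective
    apply κ'.injective
    rw [map_pow, map_pow, hZ, hζ.pow_eq_one, map_one, map_one]
  have hτZ : τ • Z = Z := by
    apply RingOfIntegers.coe_injective
    apply κ'.injective
    change κ' (τ (Z : L')) = κ' (Z : L')
    rw [hκτ, hZ, hσ]
  -- the elements which have to be units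
  set E : 𝓞 L' := (N : 𝓞 L') * (∏ i, (iO (c i) * R i)) *
    ∏ i, (if τ • (R i) = R i then 1 else τ • (R i) - R i) with hE
  have hE0 : E ≠ 0 := by
    rw [hE]
    refine mul_ne_zero (mul_ne_zero (by exact_mod_cast hN0) (Finset.prod_ne_zero_iff.2
      (fun i _ => mul_ne_zero (hcO i) (hR0 i)))) (Finset.prod_ne_zero_iff.2 (fun i _ => ?_))
    split_ifs with h
    · exact one_ne_zero
    · exact sub_ne_zero.2 h
  obtain ⟨m, hm, hm'⟩ := Pool.Agent.W723.SecC.nz L' E hE0
  obtain ⟨p, ⟨hp, hxp⟩, hpgt⟩ := (infinite_frob L' τ).exists_gt (max m N)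
  have hpm : ¬ p ∣ m := fun hd => by
    have h1 := Nat.le_of_dvd hm hd
    omega
  have : Fact p.Prime := ⟨hp⟩
  obtain ⟨φ, hφ⟩ : ∃ φ : 𝓞 L' →+* AlgebraicClosure (ZMod p), HasFrob p φ τ := by
    unfold xp at hxp
    rw [dif_pos hp] at hxp
    by_contra h
    push Not at h
    apply hxp
    rw [Nat.card_eq_zero]
    left
    exact ⟨fun x => h x.1 x.2⟩
  have hφE : φ E ≠ 0 := by
    refine hm' _ φ ?_
    rw [Ne, CharP.cast_eq_zero_iff (AlgebraicClosure (ZMod p)) p]
    exact hpm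
  rw [hE, map_mul, map_mul, map_prod, map_prod] at hφE
  have hφ1 := Finset.prod_ne_zero_iff.1 (right_ne_zero_of_mul (left_ne_zero_of_mul hφE))
  have hφ2 := Finset.prod_ne_zero_iff.1 (right_ne_zero_of_mul hφE)
  have hφi : ∀ x : 𝓞 K, φ (iO x) ^ p = φ (iO x) := by
    intro x
    have h1 := hφ (iO x)
    have h2 : τ • (iO x) = iO x := by
      apply RingOfIntegers.coe_injective
      apply κ'.injective
      change κ' (τ (iO x : L')) = _
      rw [hκτ, hiOc, σ.commutes]
    rw [h2] at h1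
    exact h1.symm
  -- the place
  set P : Ideal (𝓞 K) := RingHom.ker (φ.comp iO) with hP
  have hPprime : P.IsPrime := RingHom.ker_isPrime _
  have hP0 : P ≠ ⊥ := by
    intro h0
    have hpP : ((p : ℕ) : 𝓞 K) ∈ P := by
      rw [hP, RingHom.mem_ker, map_natCast]
      exact CharP.cast_eq_zero _ p
    rw [h0, Ideal.mem_bot] at hpP
    have : p = 0 := by exact_mod_cast hpP
    exact hp.ne_zero this
  let v : HeightOneSpectrum (𝓞 K) := ⟨P, hPprime, hP0⟩
  refine ⟨v, fun i ⟨z, hz⟩ => ?_⟩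
  have h1v : (1 : 𝓞 K) ∉ v.asIdeal := fun h => v.isPrime.ne_top ((Ideal.eq_top_iff_one _).2 h)
  obtain ⟨s, hs⟩ := local_root v (Polynomial.monic_X_sub_C (c i)) 0 h1v hN z (by
    rw [map_zero, map_one, zero_add, one_mul, hz]
    simp)
  rw [Polynomial.eval_sub, Polynomial.eval_X, Polynomial.eval_C, zero_add, one_mul] at hs
  have hs' : φ (iO (s ^ N - c i)) = 0 := (RingHom.mem_ker).1 hs
  have hRi0 : φ (R i) ≠ 0 := by
    have := hφ1 i (Finset.mem_univ i)
    rw [map_mul] at this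
    exact right_ne_zero_of_mul this
  have h3 : φ (R i) ^ N = φ (iO s) ^ N := by
    rw [← map_pow, hRN, ← map_pow, ← map_pow]
    rw [map_sub, map_sub, sub_eq_zero] at hs'
    exact hs'.symm
  have hs0 : φ (iO s) ≠ 0 := by
    intro h0
    rw [h0, zero_pow hN0] at h3
    exact hRi0 ((pow_eq_zero_iff hN0).1 h3)
  -- the order of the root of unity
  have hpN : (N : AlgebraicClosure (ZMod p)) ≠ 0 := by
    rw [Ne, CharP.cast_eq_zero_iff (AlgebraicClosure (ZMod p)) p]
    exact fun hd => by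
      have h1 := Nat.le_of_dvd (by omega) hd
      omega
  have hφZ : φ Z ^ p = φ Z := by
    have h1 := hφ Z
    rw [hτZ] at h1
    exact h1.symm
  have hNp : N ∣ p - 1 := by
    have hprim : IsPrimitiveRoot (φ Z) N := by
      have h1 : IsPrimitiveRoot Z N := by
        refine IsPrimitiveRoot.of_map_of_injective (f := κ'.comp (algebraMap (𝓞 L') L')) ?_
          (κ'.injective.comp RingOfIntegers.coe_injective)
        change IsPrimitiveRoot (κ' (Z : L')) N
        rw [hZ]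
        exact hζ
      have hNe : NeZero ((N : ℕ) : AlgebraicClosure (ZMod p)) := ⟨hpN⟩
      have h2 : (Polynomial.cyclotomic N (𝓞 L')).IsRoot Z := h1.isRoot_cyclotomic (by omega)
      rw [← Polynomial.isRoot_cyclotomic_iff, ← Polynomial.map_cyclotomic N φ,
        Polynomial.IsRoot.def, Polynomial.eval_map, Polynomial.eval₂_hom, h2.eq_zero, map_zero]
    rw [hprim.eq_orderOf]
    apply orderOf_dvd_of_pow_eq_one
    have h0 : φ Z ≠ 0 := hprim.ne_zero hN0
    have h6 : φ Z ^ (p - 1) * φ Z = 1 * φ Z := by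
      rw [← pow_succ, Nat.sub_add_cancel hp.one_le, one_mul]
      exact hφZ
    exact mul_right_cancel₀ h0 h6
  have h7 : (φ (R i) / φ (iO s)) ^ N = 1 := by
    rw [div_pow, h3, div_self (pow_ne_zero _ hs0)]
  have h8 : (φ (R i) / φ (iO s)) ^ (p - 1) = 1 := by
    obtain ⟨e, he⟩ := hNp
    rw [he, pow_mul, h7, one_pow]
  have h9 : (φ (R i) / φ (iO s)) ^ p = φ (R i) / φ (iO s) := by
    have : (φ (R i) / φ (iO s)) ^ p =
      (φ (R i) / φ (iO s)) ^ (p - 1) * (φ (R i) / φ (iO s)) := by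
      rw [← pow_succ, Nat.sub_add_cancel hp.one_le]
    rw [this, h8, one_mul]
  have h10 : φ (τ • (R i)) = φ (R i) := by
    rw [hφ (R i)]
    rw [div_pow, hφi] at h9
    exact (div_left_inj' hs0).1 h9
  by_contra hne
  have hτR : τ • (R i) ≠ R i := by
    intro h
    apply hne
    have h1 : κ' (τ (R i : L')) = κ' (R i : L') := by
      have h2 : (τ (R i : L')) = (R i : L') := congrArg (fun x : 𝓞 L' => (x : L')) h
      rw [h2]
    rw [hκτ, hR] at h1
    exact h1
  have h11 := hφ2 i (Finset.mem_univ i)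
  rw [if_neg hτR, map_sub, h10, sub_self] at h11
  exact h11 rfl

/-- **Chebotarev for radicals.** -/
theorem cheb_pow {N : ℕ} (hN : 1 ≤ N) {ζ : AlgebraicClosure K} (hζ : IsPrimitiveRoot ζ N)
    (σ : AlgebraicClosure K ≃ₐ[K] AlgebraicClosure K) (hσ : σ ζ = ζ)
    {ι : Type} [Fintype ι] (c : ι → K) (hc : ∀ i, c i ≠ 0) (r : ι → AlgebraicClosure K)
    (hr : ∀ i, r i ^ N = algebraMap K (AlgebraicClosure K) (c i)) :
    ∃ v : HeightOneSpectrum (𝓞 K), ∀ i,
      (∃ z : v.adicCompletion K, z ^ N = algebraMap K (v.adicCompletion K) (c i)) →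
      σ (r i) = r i := by
  have h1 : ∀ i, ∃ (x y : 𝓞 K), y ≠ 0 ∧ (x : K) = c i * (y : K) ^ N := by
    intro i
    obtain ⟨x, y, hy, hxy⟩ := IsFractionRing.div_surjective (𝓞 K) (c i)
    have hy0 : y ≠ 0 := nonZeroDivisors.ne_zero hy
    have hyK : (algebraMap (𝓞 K) K y) ≠ 0 := fun h0 => hy0 (RingOfIntegers.coe_injective (by
      rw [map_zero]; exact h0))
    refine ⟨x * y ^ (N - 1), y, hy0, ?_⟩
    rw [← hxy]
    have e : N = (N - 1) + 1 := by omega
    conv_rhs => rw [e]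
    change algebraMap (𝓞 K) K (x * y ^ (N - 1)) =
      algebraMap (𝓞 K) K x / algebraMap (𝓞 K) K y * (algebraMap (𝓞 K) K y) ^ (N - 1 + 1)
    rw [map_mul, map_pow, pow_succ]
    field_simp
  choose x y hy hxy using h1
  have hyK : ∀ i, (y i : K) ≠ 0 := fun i h0 => hy i (RingOfIntegers.coe_injective (by
      rw [map_zero]; exact h0))
  obtain ⟨v, hv⟩ := cheb_pow_int hN hζ σ hσ x (fun i h0 => by
    have h1 := hxy i
    rw [h0] at h1
    exact mul_ne_zero (hc i) (pow_ne_zero _ (hyK i)) (h1.symm.trans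
      (map_zero (algebraMap (𝓞 K) K))))
    (fun i => r i * algebraMap K (AlgebraicClosure K) (y i : K)) (fun i => by
      rw [mul_pow, hr, ← map_pow, ← map_mul, hxy])
  refine ⟨v, fun i ⟨z, hz⟩ => ?_⟩
  have h2 := hv i ⟨z * toLoc v (y i), by
    rw [mul_pow, hz]
    change _ = algebraMap K (v.adicCompletion K) (x i : K)
    rw [hxy, map_mul, map_pow]
    rfl⟩
  rw [map_mul, σ.commutes] at h2
  exact mul_right_cancel₀ ((map_ne_zero _).2 (hyK i)) h2

/-- **Two values.** If for every `N` there is `c` in `K` which is an `N`-th power at the places in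
`V` and `q` times an `N`-th power at the other places, then `V` is empty or contains all places. -/
theorem two_valued (hloc : T_loc) (hgal : T_gal) (hsah : T_sah) (q : K) (hq0 : q ≠ 0)
    (hq : ∀ m : ℕ, 1 ≤ m → q ^ m ≠ 1) (V : Set (HeightOneSpectrum (𝓞 K)))
    (hV : ∀ N : ℕ, 1 ≤ N → ∃ c : K, c ≠ 0 ∧
      (∀ v ∈ V, ∃ z : v.adicCompletion K, algebraMap K (v.adicCompletion K) c * z ^ N = 1) ∧
      (∀ v ∉ V, ∃ z : v.adicCompletion K, algebraMap K (v.adicCompletion K) c * z ^ N =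
        algebraMap K (v.adicCompletion K) q)) {v0 v1 : HeightOneSpectrum (𝓞 K)} (h0 : v0 ∈ V) :
    v1 ∈ V := by
  classical
  by_contra h1
  obtain ⟨p0, hp0, hl0⟩ := hloc K v0
  obtain ⟨p1, hp1, hl1⟩ := hloc K v1
  obtain ⟨D, hD1, hD⟩ := hgal K
  set x := p0 * p1 + 1 with hx
  have hx2 : 2 ≤ x := by
    have := Nat.mul_pos hp0.pos hp1.pos
    omega
  obtain ⟨t, ht⟩ : ∃ t, x ^ D = t + 1 := ⟨x ^ D - 1, by
    have := Nat.one_le_pow D x (by omega)
    omega⟩
  have ht1 : 1 ≤ t := by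
    have h2 : x ^ 1 ≤ x ^ D := Nat.pow_le_pow_right (by omega) hD1
    rw [pow_one] at h2
    omega
  have hqt : ∀ v : HeightOneSpectrum (𝓞 K), ∀ m : ℕ, 1 ≤ m →
      (algebraMap K (v.adicCompletion K) q ^ t) ^ m ≠ 1 := by
    intro v m hm h2
    rw [← pow_mul, ← map_pow] at h2
    exact hq (t * m) (Nat.mul_pos ht1 hm)
      ((algebraMap K (v.adicCompletion K)).injective (by rw [h2, map_one]))
  have hqt0 : ∀ v : HeightOneSpectrum (𝓞 K), algebraMap K (v.adicCompletion K) q ^ t ≠ 0 :=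
    fun v => pow_ne_zero _ ((map_ne_zero _).2 hq0)
  obtain ⟨k0, hk0⟩ := hl0 _ (hqt0 v0) (hqt v0)
  obtain ⟨k1, hk1⟩ := hl1 _ (hqt0 v1) (hqt v1)
  set N := p0 ^ k0 * p1 ^ k1 with hN
  have hN1 : 1 ≤ N := Nat.mul_pos (Nat.pow_pos hp0.pos) (Nat.pow_pos hp1.pos)
  have hcop : Nat.Coprime x N := by
    have e0 : Nat.Coprime x p0 := by
      rw [hx, mul_comm]
      exact (Nat.coprime_mul_right_add_left 1 p0 p1).2 (Nat.coprime_one_left p0)
    have e1 : Nat.Coprime x p1 := by
      rw [hx]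
      exact (Nat.coprime_mul_right_add_left 1 p1 p0).2 (Nat.coprime_one_left p1)
    exact Nat.Coprime.mul_right (e0.pow_right _) (e1.pow_right _)
  obtain ⟨c, hc0, hcV, hcV'⟩ := hV N hN1
  have : NeZero (N : AlgebraicClosure K) := ⟨by exact_mod_cast (by omega : N ≠ 0)⟩
  obtain ⟨ζ, hζ⟩ := HasEnoughRootsOfUnity.exists_primitiveRoot (AlgebraicClosure K) N
  obtain ⟨τ, hτ⟩ := hD x N hN1 hcop ζ hζ
  rw [ht] at hτ
  obtain ⟨r0, hr0⟩ := IsAlgClosed.exists_pow_nat_eq (algebraMap K (AlgebraicClosure K) c)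
    (by omega : 0 < N)
  obtain ⟨r1, hr1⟩ := IsAlgClosed.exists_pow_nat_eq (algebraMap K (AlgebraicClosure K) (c / q))
    (by omega : 0 < N)
  have hor : ∀ σ : AlgebraicClosure K ≃ₐ[K] AlgebraicClosure K, σ ζ = ζ →
      σ r0 = r0 ∨ σ r1 = r1 := by
    intro σ hσ
    obtain ⟨v, hv⟩ := cheb_pow hN1 hζ σ hσ (ι := Bool) (fun i => if i then c else c / q)
      (fun i => by
        cases i
        · simpa using ⟨hc0, hq0⟩
        · simpa using hc0) (fun i => if i then r0 else r1) (fun i => by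
        cases i
        · simpa using hr1
        · simpa using hr0)
    by_cases hvV : v ∈ V
    · left
      obtain ⟨z, hz⟩ := hcV v hvV
      have hz0 : z ^ N ≠ 0 := fun h => by
        rw [h, mul_zero] at hz
        exact zero_ne_one hz
      refine hv true ⟨z⁻¹, ?_⟩
      change z⁻¹ ^ N = algebraMap K (v.adicCompletion K) c
      rw [inv_pow]
      exact (eq_inv_of_mul_eq_one_left hz).symm
    · right
      obtain ⟨z, hz⟩ := hcV' v hvV
      have hqv : algebraMap K (v.adicCompletion K) q ≠ 0 := (map_ne_zero _).2 hq0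
      have hz0 : z ^ N ≠ 0 := fun h => by
        rw [h, mul_zero] at hz
        exact hqv hz.symm
      refine hv false ⟨z⁻¹, ?_⟩
      change z⁻¹ ^ N = algebraMap K (v.adicCompletion K) (c / q)
      rw [inv_pow, map_div₀, ← hz]
      have hcv : algebraMap K (v.adicCompletion K) c ≠ 0 := (map_ne_zero _).2 hc0
      field_simp
  have hor2 : (∀ σ : AlgebraicClosure K ≃ₐ[K] AlgebraicClosure K, σ ζ = ζ → σ r0 = r0) ∨
      (∀ σ : AlgebraicClosure K ≃ₐ[K] AlgebraicClosure K, σ ζ = ζ → σ r1 = r1) := by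
    by_contra hcon
    push Not at hcon
    obtain ⟨⟨σ0, hσ0, hσ0'⟩, σ1, hσ1, hσ1'⟩ := hcon
    have h2 : σ0 r1 = r1 := (hor σ0 hσ0).resolve_left hσ0'
    have h3 : σ1 r0 = r0 := (hor σ1 hσ1).resolve_right hσ1'
    rcases hor (σ0 * σ1) (by rw [AlgEquiv.mul_apply, hσ1, hσ0]) with h4 | h4
    · rw [AlgEquiv.mul_apply, h3] at h4
      exact hσ0' h4
    · rw [AlgEquiv.mul_apply] at h4
      apply hσ1'
      apply σ0.injective
      rw [h4, h2]
  rcases hor2 with h2 | h2
  · obtain ⟨y, hy⟩ := hsah K N hN1 ζ hζ c r0 hc0 hr0 h2 τ t hτ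
    obtain ⟨z, hz⟩ := hcV' v1 h1
    refine hk1 ((algebraMap K (v1.adicCompletion K) y * z ^ t) ^ (p0 ^ k0)) ?_
    rw [← pow_mul, ← hN, mul_pow, ← map_pow, hy, map_pow, ← pow_mul, mul_comm t N, pow_mul,
      ← mul_pow, hz]
  · obtain ⟨y, hy⟩ := hsah K N hN1 ζ hζ (c / q) r1 (div_ne_zero hc0 hq0) hr1 h2 τ t hτ
    obtain ⟨z, hz⟩ := hcV v0 h0
    refine hk0 ((algebraMap K (v0.adicCompletion K) y * z ^ t)⁻¹ ^ (p1 ^ k1)) ?_
    rw [← pow_mul, mul_comm (p1 ^ k1), ← hN, inv_pow, mul_pow, ← map_pow, hy, map_pow,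
      ← pow_mul, mul_comm t N, pow_mul, ← mul_pow, map_div₀, div_mul_eq_mul_div, hz, div_pow,
      one_pow, one_div, inv_inv]

end Pool.Agent.TH954.P
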