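import Pool.Agent.TH954.P.Main
import Pool.Agent.TH954.P.Pow

/-!
# Constancy of the values of a function
-/

set_option autoImplicit false
set_option linter.unusedSectionVars false

open IsDedekindDomain NumberField WeierstrassCurve MvPolynomial

namespace Pool.Agent.TH954.P

open Pool.Agent.TH954 Pool.Agent.W620.SC

variable {K : Type} [Field K] [NumberField K]

open scoped Classical in
/-- **Interpolation.** -/
lemma interp (P : Finset (Polynomial K)) (hP : ∀ m ∈ P, m.Monic ∧ Irreducible m)
    (Q : Finset (Polynomial K)) (hQ : Q ⊆ P) (f g : Polynomial K) :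
    ∃ h : Polynomial K, ∀ m ∈ P, ∀ β : AlgebraicClosure K, Polynomial.aeval β m = 0 →
      Polynomial.aeval β h = if m ∈ Q then Polynomial.aeval β f else Polynomial.aeval β g := by
  have hcop : IsCoprime (∏ m ∈ Q, m) (∏ m ∈ P \ Q, m) := by
    refine IsCoprime.prod_left (fun m0 h0 => IsCoprime.prod_right (fun m hm => ?_))
    obtain ⟨hmP, hne⟩ := Finset.mem_sdiff.1 hm
    refine ((hP m0 (hQ h0)).2.coprime_iff_not_dvd).2 (fun hd => hne ?_)
    have h1 : Associated m0 m := (hP m0 (hQ h0)).2.associated_of_dvd (hP m hmP).2 hd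
    have h2 := Polynomial.eq_of_monic_of_associated (hP m0 (hQ h0)).1 (hP m hmP).1 h1
    rwa [← h2]
  obtain ⟨a, b, hab⟩ := hcop
  refine ⟨f * (b * ∏ m ∈ P \ Q, m) + g * (a * ∏ m ∈ Q, m), fun m hm β hβ => ?_⟩
  have h3 := congrArg (Polynomial.aeval β) hab
  rw [map_add, map_mul, map_mul, map_one] at h3
  split_ifs with h
  · have h2 : Polynomial.aeval β (∏ m ∈ Q, m) = 0 := by
      rw [map_prod]
      exact Finset.prod_eq_zero h hβ
    rw [h2, mul_zero, zero_add] at h3
    rw [map_add, map_mul, map_mul, map_mul, map_mul, h3, h2, mul_one, mul_zero, mul_zero, add_zero]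
  · have h2 : Polynomial.aeval β (∏ m ∈ P \ Q, m) = 0 := by
      rw [map_prod]
      exact Finset.prod_eq_zero (Finset.mem_sdiff.2 ⟨hm, h⟩) hβ
    rw [h2, mul_zero, add_zero] at h3
    rw [map_add, map_mul, map_mul, map_mul, map_mul, h3, h2, mul_one, mul_zero, mul_zero, zero_add]

open scoped Classical in
/-- the obstruction for the values of one function, with a function which is a unit at the given
points -/
theorem obstruct_poly (g : Polynomial K) :
    ∃ (l : ℕ) (h : Polynomial K), 1 ≤ l ∧
      (∀ β ∈ (g.aroots (AlgebraicClosure K)).toFinset, Polynomial.aeval β h ≠ 0) ∧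
      ∀ (M : Type) [Field M] [Algebra K M] (A : SAct K M)
      (pl : ∀ v : HeightOneSpectrum (𝓞 K), Plc K M (AlgebraicClosure (v.adicCompletion K))),
      (∀ v, GeoPlc A (pl v)) → ∀ u : M, u ∈ A.fix →
      (∀ v, ∃ β ∈ (g.aroots (AlgebraicClosure K)).toFinset,
        (pl v).val u ((pl v).iot A.j β)) →
      (∃ w : M, w ^ l = Polynomial.aeval u h) → ∃ v, Rat pl u v := by
  set R := (g.aroots (AlgebraicClosure K)).toFinset with hRdef
  have hRs : ∀ σ : AlgebraicClosure K ≃ₐ[K] AlgebraicClosure K, ∀ θ ∈ R, σ θ ∈ R := by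
    intro σ θ hθ
    rw [hRdef, Multiset.mem_toFinset, Polynomial.mem_aroots] at hθ ⊢
    refine ⟨hθ.1, ?_⟩
    have : Polynomial.aeval ((σ : AlgebraicClosure K →ₐ[K] AlgebraicClosure K) θ) g =
        (σ : AlgebraicClosure K →ₐ[K] AlgebraicClosure K) (Polynomial.aeval θ g) :=
      Polynomial.aeval_algHom_apply _ _ _
    rw [hθ.2, map_zero] at this
    exact this
  set T := R.filter (fun θ => ∃ σ : AlgebraicClosure K ≃ₐ[K] AlgebraicClosure K, σ θ ≠ θ) with hT
  obtain ⟨l, a, hl, hob⟩ := obstruct T (by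
      intro σ θ hθ
      rw [hT, Finset.mem_filter] at hθ ⊢
      obtain ⟨h1, σ', h2⟩ := hθ
      refine ⟨hRs σ θ h1, σ * σ' * σ⁻¹, fun h3 => h2 ?_⟩
      have h4 : (σ * σ' * σ⁻¹) (σ θ) = σ (σ' θ) := by
        change σ (σ' (σ.symm (σ θ))) = _
        rw [σ.symm_apply_apply]
      rw [h4] at h3
      exact σ.injective h3) (fun θ hθ => (Finset.mem_filter.1 hθ).2)
  set P := R.image (minpoly K) with hPdef
  have hP : ∀ m ∈ P, m.Monic ∧ Irreducible m := by
    intro m hm
    obtain ⟨β, -, rfl⟩ := Finset.mem_image.1 hm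
    have hβ : IsIntegral K β := Algebra.IsIntegral.isIntegral β
    exact ⟨minpoly.monic hβ, minpoly.irreducible hβ⟩
  obtain ⟨h, hh⟩ := interp P hP (T.image (minpoly K))
    (Finset.image_subset_image (Finset.filter_subset _ _)) (Polynomial.X - Polynomial.C a) 1
  have hTne : ∀ θ, minpoly K θ ∈ T.image (minpoly K) →
      ∃ σ : AlgebraicClosure K ≃ₐ[K] AlgebraicClosure K, σ θ ≠ θ := by
    intro θ hθ
    obtain ⟨θ', hθ', he⟩ := Finset.mem_image.1 hθ
    obtain ⟨σ, hσ⟩ := (Finset.mem_filter.1 hθ').2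
    by_contra hcon
    push Not at hcon
    obtain ⟨c, hc⟩ := base_of_fixed hcon
    rw [← hc, minpoly.eq_X_sub_C (AlgebraicClosure K) c] at he
    have h2 := minpoly.aeval K θ'
    rw [he, map_sub, Polynomial.aeval_X, Polynomial.aeval_C, sub_eq_zero] at h2
    rw [h2, σ.commutes] at hσ
    exact hσ rfl
  have hhR : ∀ β ∈ R, Polynomial.aeval β h = if minpoly K β ∈ T.image (minpoly K) then
      β - algebraMap K (AlgebraicClosure K) a else 1 := by
    intro β hβ
    rw [hh _ (Finset.mem_image_of_mem _ hβ) β (minpoly.aeval K β), map_sub, Polynomial.aeval_X,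
      Polynomial.aeval_C, map_one]
  have hne0 : ∀ β ∈ R, Polynomial.aeval β h ≠ 0 := by
    intro β hβ
    rw [hhR β hβ]
    split_ifs with h1
    · intro h2
      obtain ⟨σ, hσ⟩ := hTne β h1
      rw [sub_eq_zero] at h2
      apply hσ
      rw [h2, σ.commutes]
    · exact one_ne_zero
  refine ⟨l, h, hl, hne0, ?_⟩
  intro M _ _ A pl hpl u huf hR ⟨w, hw⟩
  set f : M := Polynomial.aeval u h with hf
  have hval : ∀ v, ∀ β, (pl v).val u ((pl v).iot A.j β) →
      (pl v).val f ((pl v).iot A.j (Polynomial.aeval β h)) := by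
    intro v β hβ
    have h1 := Plc.val_aeval hβ h
    rwa [Polynomial.aeval_algHom_apply] at h1
  have hff : f ∈ A.fix := by
    intro τ
    have e1 : A.s τ (Polynomial.aeval u h) = Polynomial.aeval (A.s τ u) h :=
      (Polynomial.aeval_algHom_apply ((A.s τ : M ≃ₐ[K] M) : M →ₐ[K] M) u _).symm
    rw [hf, e1, huf τ]
  have hf0 : f ≠ 0 := by
    intro h0
    obtain ⟨v, -⟩ := hob 1 one_ne_zero
    obtain ⟨β, hβ, hβv⟩ := hR v
    have h1 := hval v β hβv
    rw [h0] at h1
    exact hne0 β hβ ((map_eq_zero ((pl v).iot A.j)).1 (Plc.val_zero.unique h1).symm)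
  obtain ⟨c, hc, g', hg, hfg⟩ := A.kummer_root hff hf0 (n := l) (by omega) hw
  obtain ⟨v, hv⟩ := hob c hc
  refine ⟨v, ?_⟩
  have : CharZero (v.adicCompletion K) :=
    charZero_of_injective_algebraMap (algebraMap K (v.adicCompletion K)).injective
  obtain ⟨β, hβ, hvalu⟩ := hR v
  by_cases hfix : ∀ σ : AlgebraicClosure K ≃ₐ[K] AlgebraicClosure K, σ β = β
  · obtain ⟨c', hc'⟩ := base_of_fixed hfix
    refine ⟨c', ?_⟩
    rw [← hc'] at hvalu
    rw [← ((pl v).iot A.j).commutes c']
    exact hvalu
  · exfalso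
    push Not at hfix
    have hβT : β ∈ T := Finset.mem_filter.2 ⟨hβ, hfix⟩
    have hgl : g' ^ l = f * algebraMap K M c⁻¹ := by
      rw [hfg, map_inv₀]
      field_simp [(map_ne_zero (algebraMap K M)).2 hc]
    have hgW : g' ∈ (pl v).W := by
      apply Plc.mem_of_pow_mem (n := l) (by omega)
      rw [hgl]
      exact mul_mem (hval v β hvalu).mem ((pl v).alg_mem _)
    obtain ⟨z, hz⟩ := value_base A (hpl v) hg hgW
    refine hv ((pl v).iot A.j) β hβT z ?_
    have h1 := hval v β hvalu
    rw [hhR β hβ, if_pos (Finset.mem_image_of_mem _ hβT)] at h1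
    have h2 : (pl v).val (algebraMap K M c * g' ^ l)
        (algebraMap K (AlgebraicClosure (v.adicCompletion K)) c *
          (algebraMap (v.adicCompletion K) (AlgebraicClosure (v.adicCompletion K)) z) ^ l) :=
      (Plc.val_alg c).mul (Plc.val.pow ⟨hgW, hz.symm⟩ l)
    rw [← hfg] at h2
    have h3 := h1.unique h2
    rw [h3, map_mul, map_pow, ← IsScalarTower.algebraMap_apply]


open scoped Classical in
/-- **The values of a function are constant and rational** if certain polynomials in it have roots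
of all orders. -/
theorem const_data (hloc : T_loc) (hgal : T_gal) (hsah : T_sah) (g : Polynomial K) :
    ∃ H : Finset (Polynomial K),
      (∀ h ∈ H, ∀ β ∈ (g.aroots (AlgebraicClosure K)).toFinset, Polynomial.aeval β h ≠ 0) ∧
      ∀ (M : Type) [Field M] [Algebra K M] (A : SAct K M)
      (pl : ∀ v : HeightOneSpectrum (𝓞 K), Plc K M (AlgebraicClosure (v.adicCompletion K))),
      (∀ v, GeoPlc A (pl v)) → ∀ u : M, u ∈ A.fix →
      (∀ v, ∃ β ∈ (g.aroots (AlgebraicClosure K)).toFinset,
        (pl v).val u ((pl v).iot A.j β)) →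
      (∀ h ∈ H, ∀ N : ℕ, 1 ≤ N → ∃ w : M, w ^ N = Polynomial.aeval u h) →
      ∃ c : K, ∀ v, (pl v).val u
        (algebraMap K (AlgebraicClosure (v.adicCompletion K)) c) := by
  set R := (g.aroots (AlgebraicClosure K)).toFinset with hRdef
  obtain ⟨l, h1, hl, hh1, hob⟩ := obstruct_poly g
  set P := R.image (minpoly K) with hPdef
  have hP : ∀ m ∈ P, m.Monic ∧ Irreducible m := by
    intro m hm
    obtain ⟨β, -, rfl⟩ := Finset.mem_image.1 hm
    have hβ : IsIntegral K β := Algebra.IsIntegral.isIntegral β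
    exact ⟨minpoly.monic hβ, minpoly.irreducible hβ⟩
  have hint : ∀ m0 : Polynomial K, ∃ h : Polynomial K, m0 ∈ P → ∀ m ∈ P,
      ∀ β : AlgebraicClosure K, Polynomial.aeval β m = 0 →
      Polynomial.aeval β h = if m = m0 then 1 else 2 := by
    intro m0
    by_cases h0 : m0 ∈ P
    · obtain ⟨h, hh⟩ := interp P hP {m0} (Finset.singleton_subset_iff.2 h0) 1 2
      refine ⟨h, fun _ m hm β hβ => ?_⟩
      rw [hh m hm β hβ, map_one, map_ofNat]
      simp only [Finset.mem_singleton]
    · exact ⟨0, fun h => absurd h h0⟩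
  choose h hh using hint
  refine ⟨insert h1 (P.image h), ?_, ?_⟩
  · intro h' hh' β hβ
    rcases Finset.mem_insert.1 hh' with rfl | hh'
    · exact hh1 β hβ
    · obtain ⟨m0, hm0, rfl⟩ := Finset.mem_image.1 hh'
      rw [hh m0 hm0 _ (Finset.mem_image_of_mem _ hβ) β (minpoly.aeval K β)]
      split_ifs
      · exact one_ne_zero
      · exact two_ne_zero
  intro M _ _ A pl hpl u huf hR hroot
  obtain ⟨v0, c', hc'⟩ := hob M A pl hpl u huf hR
    (hroot _ (Finset.mem_insert_self _ _) l hl)
  refine ⟨c', fun v => ?_⟩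
  choose β hβR hβ using hR
  have hβP : ∀ v, minpoly K (β v) ∈ P := fun v => Finset.mem_image_of_mem _ (hβR v)
  have hβ0 : β v0 = algebraMap K (AlgebraicClosure K) c' := by
    apply ((pl v0).iot A.j).injective
    change (pl v0).iot A.j (β v0) = (pl v0).iot A.j (algebraMap K (AlgebraicClosure K) c')
    rw [((pl v0).iot A.j).commutes]
    exact (hβ v0).unique hc'
  have key := two_valued hloc hgal hsah (2 : K) two_ne_zero (fun m hm h2 => by
      have h3 : ((2 : ℕ) : K) ^ m = ((1 : ℕ) : K) := by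
        push_cast
        exact h2
      have h4 : (2 : ℕ) ^ m = 1 := by exact_mod_cast h3
      have h5 : 1 < (2 : ℕ) ^ m := Nat.one_lt_two_pow (by omega)
      omega) {v | minpoly K (β v) = minpoly K (β v0)} (fun N hN => by
    obtain ⟨w, hw⟩ := hroot (h (minpoly K (β v0))) (Finset.mem_insert_of_mem
      (Finset.mem_image_of_mem _ (hβP v0))) N hN
    set f : M := Polynomial.aeval u (h (minpoly K (β v0))) with hf
    have hval : ∀ v, (pl v).val f (if minpoly K (β v) = minpoly K (β v0) then 1 else 2) := by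
      intro v
      have h1 := Plc.val_aeval (hβ v) (h (minpoly K (β v0)))
      rw [Polynomial.aeval_algHom_apply, hh _ (hβP v0) _ (hβP v) _ (minpoly.aeval K (β v))] at h1
      split_ifs at h1 ⊢
      · rwa [map_one] at h1
      · rwa [map_ofNat] at h1
    have hff : f ∈ A.fix := by
      intro τ
      rw [hf]
      have e1 : A.s τ (Polynomial.aeval u (h (minpoly K (β v0)))) =
          Polynomial.aeval (A.s τ u) (h (minpoly K (β v0))) :=
        (Polynomial.aeval_algHom_apply ((A.s τ : M ≃ₐ[K] M) : M →ₐ[K] M) u _).symm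
      rw [e1, huf τ]
    have hf0 : f ≠ 0 := by
      intro h0
      have h1 := hval v0
      rw [if_pos rfl, h0] at h1
      exact zero_ne_one (Plc.val_zero.unique h1)
    obtain ⟨c, hc, g', hg', hfg⟩ := A.kummer_root hff hf0 (n := N) (by omega) hw
    have hgl : g' ^ N = f * algebraMap K M c⁻¹ := by
      rw [hfg, map_inv₀]
      field_simp [(map_ne_zero (algebraMap K M)).2 hc]
    have hz : ∀ v, ∃ z : v.adicCompletion K,
        algebraMap K (AlgebraicClosure (v.adicCompletion K)) c *
          (algebraMap (v.adicCompletion K) (AlgebraicClosure (v.adicCompletion K)) z) ^ N =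
        (if minpoly K (β v) = minpoly K (β v0) then 1 else 2) := by
      intro v
      have : CharZero (v.adicCompletion K) :=
        charZero_of_injective_algebraMap (algebraMap K (v.adicCompletion K)).injective
      have hgW : g' ∈ (pl v).W := by
        apply Plc.mem_of_pow_mem (n := N) (by omega)
        rw [hgl]
        exact mul_mem (hval v).mem ((pl v).alg_mem _)
      obtain ⟨z, hz⟩ := value_base A (hpl v) hg' hgW
      refine ⟨z, ?_⟩
      have h2 : (pl v).val (algebraMap K M c * g' ^ N)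
          (algebraMap K (AlgebraicClosure (v.adicCompletion K)) c *
            (algebraMap (v.adicCompletion K) (AlgebraicClosure (v.adicCompletion K)) z) ^ N) :=
        (Plc.val_alg c).mul (Plc.val.pow ⟨hgW, hz.symm⟩ N)
      rw [← hfg] at h2
      exact h2.unique (hval v)
    refine ⟨c, hc, fun v hv => ?_, fun v hv => ?_⟩
    · obtain ⟨z, hz⟩ := hz v
      refine ⟨z, (algebraMap (v.adicCompletion K)
        (AlgebraicClosure (v.adicCompletion K))).injective ?_⟩
      have hv' : minpoly K (β v) = minpoly K (β v0) := hv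
      rw [if_pos hv'] at hz
      rw [map_mul, map_pow, map_one, ← hz, ← IsScalarTower.algebraMap_apply]
    · obtain ⟨z, hz⟩ := hz v
      refine ⟨z, (algebraMap (v.adicCompletion K)
        (AlgebraicClosure (v.adicCompletion K))).injective ?_⟩
      have hv' : ¬ minpoly K (β v) = minpoly K (β v0) := hv
      rw [if_neg hv'] at hz
      rw [map_mul, map_pow, map_ofNat, map_ofNat, ← hz, ← IsScalarTower.algebraMap_apply])
    (v0 := v0) (v1 := v) rfl
  have h1 : minpoly K (β v) = minpoly K (β v0) := key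
  rw [hβ0, minpoly.eq_X_sub_C (AlgebraicClosure K) c'] at h1
  have h2 := minpoly.aeval K (β v)
  rw [h1, map_sub, Polynomial.aeval_X, Polynomial.aeval_C, sub_eq_zero] at h2
  have h3 := hβ v
  rw [h2, ((pl v).iot A.j).commutes] at h3
  exact h3

end Pool.Agent.TH954.P
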