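import Pool.Agent.TH954.P.Kum

/-!
# Sections of étale fundamental groups: the differences of the point and its value
-/

set_option autoImplicit false
set_option linter.unusedSectionVars false

open IsDedekindDomain NumberField WeierstrassCurve MvPolynomial

namespace Pool.Agent.TH954

open Pool.Agent.TH942 Pool.Agent.W620.SC

variable {K : Type} [Field K] [NumberField K] {F Ω M B : Type} [Field F] [Field Ω] [Field M]
  [Field B] [Algebra K F] [Algebra F Ω] [Algebra K Ω] [IsScalarTower K F Ω] [Algebra F M]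
  [Algebra K M] [IsScalarTower K F M] [Algebra K B] [IsAlgClosure F Ω] [IsAlgClosure K B]

/-- places compatible with the section -/
lemma givenBy_geo (s : GalSection K F M B) [Algebra.IsAlgebraic F M] {L : Type} [Field L]
    [Algebra K L] {p : Plc K M (AlgebraicClosure L)} (h : s.GivenBy L p) : GeoPlc (toSAct s) p := by
  intro σ τ hστ x
  refine h σ ((eqv K B).autCongr τ) ?_ x _ ⟨x.2, rfl⟩
  intro z c hc
  obtain ⟨y, rfl⟩ := (eqv K B).surjective z
  have e1 : p.val ((toSAct s).j y) (p.iot (toSAct s).j y) := Plc.val_j _ y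
  have e2 : p.val ((toSAct s).j (τ y)) (p.iot (toSAct s).j (τ y)) := Plc.val_j _ (τ y)
  have e3 : s.j ((eqv K B).autCongr τ (eqv K B y)) = (toSAct s).j (τ y) := by
    change s.j (eqv K B (τ ((eqv K B).symm (eqv K B y)))) = _
    rw [AlgEquiv.symm_apply_apply]
    rfl
  have e4 : p.iot (toSAct s).j y = c := e1.unique hc
  rw [e3, ← e4, ← hστ y]
  exact e2

open scoped Classical in
theorem et_of_fin2 {a b : K} (hE : ShortInt (sw a b)) {n : ℕ}
    (hfin : FinProp a b (⊤ : AddSubgroup (SPt a b)) n) {M0 : ℕ} (hM1 : 1 ≤ M0)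
    (hM : ShaKilledBy (sw a b) M0)
    (S : Set (MvPolynomial (Fin n × Fin 3) K)) (hS : ∀ f ∈ S, ∃ d, MultiHom d f)
    (hX : {y : Fin n → SPt a b | OnX S (fun i => crd (y i))}.Finite)
    (U : Set (ValuationSubring F)) (hU : ∀ O ∈ U, ∀ c : K, algebraMap K F c ∈ O)
    (e : M →ₐ[F] Ω) (he : unramified F Ω U ≤ e.fieldRange)
    (P : Fin n → ((sw a b).baseChange F).toAffine.Point)
    (hPS : OnX S (fun i => crd (P i))) (s : GalSection K F M B)
    (p : ∀ v : HeightOneSpectrum (𝓞 K), Plc K M (AlgebraicClosure (v.adicCompletion K)))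
    (hp : ∀ v, s.GivenBy (v.adicCompletion K) (p v)) :
    ∃ x : Fin n → SPt a b, OnX S (fun i => crd (x i)) ∧
      (∀ v i, (p v).Spec (fun j => algebraMap F M (crd (P i) j))
        (fun j => algebraMap K (AlgebraicClosure (v.adicCompletion K)) (crd (x i) j))) ∧
      (∀ i, s.SameKummer (sw a b) (P i) (x i)) ∧
      ∀ (i : Fin n) (x0 y0 : F) (h : ((sw a b).baseChange F).toAffine.Nonsingular x0 y0),
        P i - locHom (L := F) (sw a b) (x i) = .some x0 y0 h →
        ∀ v, algebraMap F M x0 ∉ (p v).W := by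
  have hΩ1 : IsAlgClosed Ω := IsAlgClosure.isAlgClosed F
  have hΩ2 : Algebra.IsAlgebraic F Ω := IsAlgClosure.isAlgebraic
  have hMalg : Algebra.IsAlgebraic F M := Algebra.IsAlgebraic.of_injective e e.injective
  have hD : 4 * a ^ 3 + 27 * b ^ 2 ≠ 0 := hE.disc
  have hcΩ : CharZero Ω := charZero_of_injective_algebraMap (algebraMap K Ω).injective
  have hcv : ∀ v : HeightOneSpectrum (𝓞 K), CharZero (v.adicCompletion K) := fun v =>
    charZero_of_injective_algebraMap (algebraMap K (v.adicCompletion K)).injective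
  have hcv' : ∀ v : HeightOneSpectrum (𝓞 K), CharZero (AlgebraicClosure (v.adicCompletion K)) :=
    fun v => charZero_of_injective_algebraMap
      (algebraMap (v.adicCompletion K) (AlgebraicClosure (v.adicCompletion K))).injective
  set A := toSAct s with hA
  have hpl : ∀ v, GeoPlc A (p v) := fun v => givenBy_geo s (hp v)
  have hAF : ∀ (τ : AlgebraicClosure K ≃ₐ[K] AlgebraicClosure K) (x : F),
      A.s τ (algebraMap F M x) = algebraMap F M x :=
    fun τ x => (s.s ((eqv K B).autCongr τ)).commutes x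
  set P' : Fin n → ((sw a b).baseChange M).toAffine.Point :=
    fun i => pm (sw a b) (IsScalarTower.toAlgHom K F M) (P i) with hP'
  have hP'S : OnX S (fun i => crd (P' i)) := onX_pm _ hPS
  have hP'f : ∀ i τ, A.pt a b τ (P' i) = P' i := by
    intro i τ
    change pm (sw a b) _ (pm (sw a b) _ (P i)) = pm (sw a b) _ (P i)
    rw [pm_pm]
    congr 2
    apply AlgHom.ext
    intro x
    exact hAF τ x
  choose red h1 h2 using fun v => exists_redM (p v) hD
  obtain ⟨x, hxS, hx, hxc⟩ := points_eq3 hE hfin hM1 hM S hS hX A P' hP'S hP'f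
    (fun N hN i => exists_div_unram hD ((e.restrictScalars K).comp A.j) U hU e he (P i) hN)
    (fun N hN T hT => torsion_mem_sub hD (e.restrictScalars K) A.j N hN T hT) p hpl red h1 h2
  refine ⟨x, hxS, fun v i => ?_, fun i N hN => ?_, fun i x0 y0 hxy0 hD0e v hmem => ?_⟩
  · obtain ⟨u, hu0, hu⟩ := red_crd (pl := p v) (red := red v) (map_zero (red v)) (h1 v) (h2 v)
      (P' i)
    refine ⟨u, hu0, fun j => ?_⟩
    obtain ⟨h3, h4⟩ := hu j
    rw [hx v i, crd_incl] at h4
    have h5 : crd (P' i) j = algebraMap F M (crd (P i) j) := crd_pm _ _ _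
    change (p v).val (u * algebraMap F M (crd (P i) j))
      (algebraMap K (AlgebraicClosure (v.adicCompletion K)) (crd (x i) j))
    rw [← h4, ← h5]
    exact ⟨h3, rfl⟩
  · obtain ⟨Q, R, hQ, hR, hc⟩ := hxc N hN i
    refine ⟨Q, pm (sw a b) (eqv K B : AlgebraicClosure K →ₐ[K] B) R, hQ, ?_, fun g => ?_⟩
    · rw [← map_nsmul, ← eqv_incl (eqv K B : AlgebraicClosure K →ₐ[K] B)]
      exact congrArg _ hR
    · have h3 := hc ((eqv K B).autCongr.symm g)
      have h4 : A.pt a b ((eqv K B).autCongr.symm g) Q =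
          pm (sw a b) ((s.s g : M →ₐ[F] M).restrictScalars K) Q := by
        unfold SAct.pt
        congr 2
        apply AlgHom.ext
        intro z
        exact toSAct_s s g z
      have h5 : ∀ T : AlgPt (sw a b) K, pm (sw a b) A.j T =
          pm (sw a b) s.j (pm (sw a b) (eqv K B : AlgebraicClosure K →ₐ[K] B) T) := by
        intro T
        rw [pm_pm]
        rfl
      have h6 : pm (sw a b) (eqv K B : AlgebraicClosure K →ₐ[K] B)
          (act (sw a b) ((eqv K B).autCongr.symm g) R) =
          pm (sw a b) (g : B →ₐ[K] B) (pm (sw a b) (eqv K B : AlgebraicClosure K →ₐ[K] B) R) := by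
        unfold act
        rw [pm_pm, pm_pm]
        congr 2
        apply AlgHom.ext
        intro z
        change eqv K B ((eqv K B).symm (g (eqv K B z))) = g (eqv K B z)
        rw [AlgEquiv.apply_symm_apply]
      rw [← h4, h3, add_sub_cancel_left, h5, map_sub, h6]
  · have hredD : red v (pm (sw a b) (IsScalarTower.toAlgHom K F M)
        (P i - locHom (L := F) (sw a b) (x i))) = 0 := by
      have e1 : pm (sw a b) (IsScalarTower.toAlgHom K F M)
          (P i - locHom (L := F) (sw a b) (x i)) =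
          P' i - pm (sw a b) A.j (incl (sw a b) K (x i)) := by
        rw [map_sub, pm_loc A]
      rw [e1, map_sub, hx, red_pm (pl := p v) (a := a) (b := b) (red := red v) (map_zero (red v))
        (h1 v) (h2 v) A.j ((p v).iot A.j) ((p v).iot_spec A.j)]
      have e2 := incl_loc (E := sw a b) ((p v).iot A.j) (x i)
      rw [e2, sub_self]
    obtain ⟨g, e⟩ := pm_some (E := sw a b) (IsScalarTower.toAlgHom K F M) hxy0
    rw [hD0e, e] at hredD
    obtain ⟨_, _, h4⟩ := h2 v _ _ g hmem
    rw [h4] at hredD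
    exact Affine.Point.some_ne_zero _ hredD

end Pool.Agent.TH954
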