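import Pool.Agent.TH954.P.Stmts

/-!
# A function of a function field of one variable has finitely many zeros
-/

set_option autoImplicit false

open scoped IntermediateField.algebraAdjoinAdjoin

namespace Pool.Agent.TH954.P

namespace Fin_

/-- `K[w]` is a Dedekind domain for a transcendental element `w` -/
lemma dedekind {K F : Type} [Field K] [Field F] [Algebra K F] {w : F}
    (hw : Transcendental K w) : IsDedekindDomain (Algebra.adjoin K {w}) := by
  let e := (Polynomial.algEquivOfTranscendental K w hw).toRingEquiv
  have : IsPrincipalIdealRing (Algebra.adjoin K {w}) :=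
    IsPrincipalIdealRing.of_surjective e.toRingHom e.surjective
  infer_instance

/-- in a Dedekind domain, of any two elements one divides the other locally at a nonzero prime -/
lemma local_dvd {B : Type} [CommRing B] [IsDedekindDomain B] (q : Ideal B)
    [hq : q.IsPrime] (h0 : q ≠ ⊥) (a b : B) :
    (∃ y s : B, s ∉ q ∧ a * y = b * s) ∨ (∃ y s : B, s ∉ q ∧ b * y = a * s) := by
  have hdvr : IsDiscreteValuationRing (Localization.AtPrime q) :=
    IsLocalization.AtPrime.isDiscreteValuationRing_of_dedekind_domain B h0 _
  have hinj : Function.Injective (algebraMap B (Localization.AtPrime q)) :=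
    IsLocalization.injective _ q.primeCompl_le_nonZeroDivisors
  have key : ∀ (x y : B) (c : Localization.AtPrime q),
      algebraMap B _ x * c = algebraMap B _ y → ∃ z s : B, s ∉ q ∧ x * z = y * s := by
    intro x y c hc
    obtain ⟨⟨z, s⟩, hzs⟩ := IsLocalization.surj q.primeCompl c
    refine ⟨z, s, s.2, hinj ?_⟩
    rw [map_mul, map_mul, ← hzs, ← mul_assoc, hc]
  obtain ⟨c, hc | hc⟩ := ValuationRing.cond (algebraMap B (Localization.AtPrime q) a)
    (algebraMap B (Localization.AtPrime q) b)
  · exact Or.inl (key _ _ _ hc)
  · exact Or.inr (key _ _ _ hc)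

/-- the elements of a ring `B` with image in the maximal ideal of `W` -/
def zeros {B F : Type} [CommRing B] [Field F] (f : B →+* F) (W : ValuationSubring F)
    (h : ∀ b : B, f b ∈ W) : Ideal B where
  carrier := {b | W.valuation (f b) < 1}
  add_mem' := by
    intro a b ha hb
    simp only [Set.mem_ofPred_eq, map_add] at *
    exact Valuation.map_add_lt _ ha hb
  zero_mem' := by simp
  smul_mem' := by
    intro c x hx
    simp only [Set.mem_ofPred_eq, smul_eq_mul, map_mul] at *
    exact lt_of_le_of_lt (mul_le_of_le_one_left' ((W.valuation_le_one_iff _).2 (h c))) hx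

lemma mem_zeros {B F : Type} [CommRing B] [Field F] (f : B →+* F) (W : ValuationSubring F)
    (h : ∀ b : B, f b ∈ W) (b : B) : b ∈ zeros f W h ↔ W.valuation (f b) < 1 := Iff.rfl

lemma eq_one_of_notMem {B F : Type} [CommRing B] [Field F] (f : B →+* F) (W : ValuationSubring F)
    (h : ∀ b : B, f b ∈ W) {b : B} (hb : b ∉ zeros f W h) : W.valuation (f b) = 1 := by
  rw [mem_zeros, not_lt] at hb
  exact le_antisymm ((W.valuation_le_one_iff _).2 (h b)) hb

lemma zeros_prime {B F : Type} [CommRing B] [Field F] (f : B →+* F) (W : ValuationSubring F)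
    (h : ∀ b : B, f b ∈ W) : (zeros f W h).IsPrime := by
  constructor
  · intro ht
    have : (1 : B) ∈ zeros f W h := by rw [ht]; trivial
    rw [mem_zeros, map_one, map_one] at this
    exact lt_irrefl _ this
  · intro a b hab
    by_contra hc
    rw [not_or] at hc
    rw [mem_zeros, map_mul, map_mul, eq_one_of_notMem f W h hc.1, eq_one_of_notMem f W h hc.2,
      one_mul] at hab
    exact lt_irrefl _ hab

/-- the prime ideal determines the valuation ring -/
lemma le_of_zeros {B F : Type} [CommRing B] [IsDedekindDomain B] [Field F] [Algebra B F]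
    [IsFractionRing B F] (W W' : ValuationSubring F) (h : ∀ b : B, algebraMap B F b ∈ W)
    (h' : ∀ b : B, algebraMap B F b ∈ W') (hz : zeros _ W h = zeros _ W' h')
    (h0 : zeros _ W h ≠ ⊥) : W ≤ W' := by
  have hp := zeros_prime _ W h
  intro x hx
  obtain ⟨a, b, hb, rfl⟩ := IsFractionRing.div_surjective (A := B) x
  have hb0 : algebraMap B F b ≠ 0 := by
    intro h1
    exact nonZeroDivisors.ne_zero hb ((map_eq_zero_iff _ (IsFractionRing.injective B F)).1 h1)
  rw [← W'.valuation_le_one_iff]
  rcases local_dvd (zeros _ W h) h0 a b with ⟨y, s, hs, hy⟩ | ⟨y, s, hs, hy⟩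
  · have e : algebraMap B F a / algebraMap B F b * algebraMap B F y = algebraMap B F s := by
      rw [div_mul_eq_mul_div, ← map_mul, hy, map_mul]
      field_simp
    have e1 := congrArg W.valuation e
    have e2 := congrArg W'.valuation e
    have hs' : s ∉ zeros _ W' h' := by rw [← hz]; exact hs
    rw [map_mul, eq_one_of_notMem (b := s) _ W h hs] at e1
    rw [map_mul, eq_one_of_notMem (b := s) _ W' h' hs'] at e2
    have hyn : y ∉ zeros _ W h := by
      intro hyz
      rw [mem_zeros] at hyz
      have := lt_of_le_of_lt (mul_le_of_le_one_left' ((W.valuation_le_one_iff _).2 hx)) hyz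
      rw [e1] at this
      exact lt_irrefl _ this
    have hyn' : y ∉ zeros _ W' h' := by rw [← hz]; exact hyn
    rw [eq_one_of_notMem (b := y) _ W' h' hyn', mul_one] at e2
    exact e2.le
  · have e : algebraMap B F a / algebraMap B F b * algebraMap B F s = algebraMap B F y := by
      rw [div_mul_eq_mul_div, ← map_mul, ← hy, map_mul]
      field_simp
    have e2 := congrArg W'.valuation e
    have hs' : s ∉ zeros _ W' h' := by rw [← hz]; exact hs
    rw [map_mul, eq_one_of_notMem (b := s) _ W' h' hs', mul_one] at e2
    rw [e2]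
    exact (W'.valuation_le_one_iff _).2 (h' y)

end Fin_

open Fin_ in
theorem fin : T_fin := by
  intro K F _ _ _ _ w hw hfin
  have hw0 : w ≠ 0 := by
    rintro rfl
    exact hw isAlgebraic_zero
  set A := Algebra.adjoin K {w} with hA
  set E := IntermediateField.adjoin K {w} with hE
  have hAd : IsDedekindDomain A := dedekind hw
  have : CharZero E := charZero_of_injective_algebraMap (algebraMap K E).injective
  have hBd : IsDedekindDomain (integralClosure A F) := integralClosure.isDedekindDomain A E F
  have hBf : IsFractionRing (integralClosure A F) F :=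
    integralClosure.isFractionRing_of_finite_extension E F
  have hwA : w ∈ A := Algebra.self_mem_adjoin_singleton K w
  let wB : integralClosure A F := algebraMap A (integralClosure A F) ⟨w, hwA⟩
  have hwB : algebraMap (integralClosure A F) F wB = w := rfl
  have hwB0 : wB ≠ 0 := by
    intro h
    rw [h, map_zero] at hwB
    exact hw0 hwB.symm
  -- `B` is contained in every `W`
  have hBW : ∀ W : ValuationSubring F, (∀ c : K, algebraMap K F c ∈ W) → W.valuation w < 1 →
      ∀ b : integralClosure A F, algebraMap (integralClosure A F) F b ∈ W := by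
    intro W hK hwW b
    have hAW : ∀ a : A, algebraMap A F a ∈ W.toSubring := by
      rintro ⟨a, ha⟩
      have hle : Algebra.adjoin K {w} ≤
          { W.toSubring with algebraMap_mem' := hK : Subalgebra K F } := by
        refine Algebra.adjoin_le ?_
        rintro x rfl
        exact (W.valuation_le_one_iff x).1 hwW.le
      exact hle ha
    let φ : A →+* W := (algebraMap A F).codRestrict W.toSubring hAW
    have h1 : IsIntegral W (RingHom.id F (algebraMap (integralClosure A F) F b)) :=
      IsIntegral.map_of_comp_eq φ (RingHom.id F) (by ext; rfl) b.2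
    obtain ⟨y, hy⟩ := IsIntegrallyClosed.isIntegral_iff.1 h1
    rw [RingHom.id_apply] at hy
    rw [← hy]
    exact y.2
  have hspan : Ideal.span {wB} ≠ 0 := by
    rw [Ne, Ideal.zero_eq_bot, Ideal.span_singleton_eq_bot]
    exact hwB0
  have hT := (Ideal.finite_factors hspan).image
    (fun v : IsDedekindDomain.HeightOneSpectrum (integralClosure A F) =>
      (v.asIdeal : Set (integralClosure A F)))
  refine Set.Finite.of_injOn (f := fun W : ValuationSubring F =>
    {b : integralClosure A F | W.valuation (algebraMap (integralClosure A F) F b) < 1})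
    ?_ ?_ hT
  · rintro W ⟨hK, hwW⟩
    have hW := hBW W hK hwW
    have hmem : wB ∈ zeros _ W hW := hwW
    refine ⟨⟨zeros _ W hW, zeros_prime _ W hW, fun h => ?_⟩, ?_, rfl⟩
    · rw [h] at hmem
      exact hwB0 hmem
    · rw [Set.mem_ofPred_eq, Ideal.dvd_iff_le, Ideal.span_le]
      rintro x rfl
      exact hmem
  · rintro W ⟨hK, hwW⟩ W' ⟨hK', hwW'⟩ hWW'
    have hz : zeros _ W (hBW W hK hwW) = zeros _ W' (hBW W' hK' hwW') := by
      ext b
      exact Set.ext_iff.1 hWW' b
    have h0 : zeros _ W (hBW W hK hwW) ≠ ⊥ := by
      intro h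
      have hmem : wB ∈ zeros _ W (hBW W hK hwW) := hwW
      rw [h] at hmem
      exact hwB0 hmem
    exact le_antisymm (le_of_zeros W W' _ _ hz h0) (le_of_zeros W' W _ _ hz.symm (hz ▸ h0))

end Pool.Agent.TH954.P
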