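import Pool.Agent.TH954.P.Main

/-!
# Sections of fundamental groups of open curves and rational points: the theorem
-/

set_option autoImplicit false
set_option linter.unusedSectionVars false

open IsDedekindDomain NumberField WeierstrassCurve MvPolynomial

namespace Pool.Agent.TH954.P

open Pool.Agent.TH954 Pool.Agent.TH942 Pool.Agent.W620.SC

open scoped Classical in
theorem punct_of_fin (hfin : T_fin) (hsep : T_sep) (hpoly : T_poly)
    {K : Type} [Field K] [NumberField K] {a b : K} (hE : ShortInt (sw a b)) {n : ℕ}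
    (hfn : FinProp a b (⊤ : AddSubgroup (SPt a b)) n) {M0 : ℕ} (hM1 : 1 ≤ M0)
    (hM : ShaKilledBy (sw a b) M0)
    (S : Set (MvPolynomial (Fin n × Fin 3) K)) (hS : ∀ f ∈ S, ∃ d, MultiHom d f)
    (hX : {y : Fin n → SPt a b | OnX S (fun i => crd (y i))}.Finite)
    (F : Type) [Field F] [Algebra K F] (hfg : (⊤ : IntermediateField K F).FG)
    (hF : ∃ t : F, Transcendental K t ∧
      Algebra.IsAlgebraic (IntermediateField.adjoin K {t}) F)
    (P : Fin n → ((sw a b).baseChange F).toAffine.Point)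
    (hPS : OnX S (fun i => crd (P i)))
    (hPn : ∃ i, ∀ y : SPt a b, P i ≠ locHom (L := F) (sw a b) y) :
    ∃ D : Set (ValuationSubring F), D.Finite ∧
      (∀ O ∈ D, O ≠ ⊤ ∧ ∀ c : K, algebraMap K F c ∈ O) ∧
      ∀ C : Set (ValuationSubring F), (∀ O ∈ C, ∀ c : K, algebraMap K F c ∈ O) → Disjoint C D →
      ∀ (Ω M B : Type) [Field Ω] [Field M] [Field B] [Algebra F Ω] [Algebra K Ω]
        [IsScalarTower K F Ω] [IsAlgClosure F Ω] [Algebra F M] [Algebra K M]
        [IsScalarTower K F M] [Algebra K B] [IsAlgClosure K B] (e : M →ₐ[F] Ω),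
      unramified F Ω C ≤ e.fieldRange → ∀ (s : GalSection K F M B)
        (p : ∀ v : HeightOneSpectrum (𝓞 K), Plc K M (AlgebraicClosure (v.adicCompletion K))),
      (∀ v, s.GivenBy (v.adicCompletion K) (p v)) →
      ∃ (x : Fin n → SPt a b) (O : ValuationSubring F) (v : HeightOneSpectrum (𝓞 K)),
        OnX S (fun i => crd (x i)) ∧
        (∀ v i, (p v).Spec (fun j => algebraMap F M (crd (P i) j))
          (fun j => algebraMap K (AlgebraicClosure (v.adicCompletion K)) (crd (x i) j))) ∧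
        (∀ i, s.SameKummer (sw a b) (P i) (x i)) ∧
        O ≠ ⊤ ∧ (∀ c : K, algebraMap K F c ∈ O) ∧
        (∀ a ∈ O, ∃ c : K, O.valuation (a - algebraMap K F c) < 1) ∧
        (p v).W.comap (algebraMap F M) = O := by
  obtain ⟨i, hPi⟩ := hPn
  -- the functions
  have hz : ∀ y : SPt a b, ∃ z z' : F,
      ∃ h : ((sw a b).baseChange F).toAffine.Nonsingular z z',
        P i - locHom (L := F) (sw a b) y = .some z z' h := by
    intro y
    rcases h : P i - locHom (L := F) (sw a b) y with _ | ⟨z, z', h'⟩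
    · exact absurd (sub_eq_zero.1 h) (hPi y)
    · exact ⟨z, z', h', rfl⟩
  choose z z' hzz hz using hz
  choose D hDf hDv hD using fun y : SPt a b =>
    punct_of_func hfin hsep hpoly hfg hF (z y)
  refine ⟨⋃ y ∈ {y : Fin n → SPt a b | OnX S (fun i => crd (y i))}, D (y i),
    hX.biUnion (fun y _ => hDf _), ?_, ?_⟩
  · intro O hO
    simp only [Set.mem_iUnion] at hO
    obtain ⟨y, -, hO⟩ := hO
    exact hDv _ O hO
  · intro C hC hCD Ω M B _ _ _ _ _ _ _ _ _ _ _ _ e he s p hp
    obtain ⟨x, hxS, hx, hxs, hxz⟩ := et_of_fin2 hE hfn hM1 hM S hS hX C hC e he P hPS s p hp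
    obtain ⟨O, v, h1, h2, h3, h4⟩ := hD (x i) C hC (hCD.mono_right (by
      intro O hO
      simp only [Set.mem_iUnion]
      exact ⟨x, hxS, hO⟩)) Ω M B e he s p hp (hxz i _ _ _ (hz (x i)))
    exact ⟨x, O, v, hxS, hx, hxs, h1, h2, h3, h4⟩

open scoped Classical in
theorem punct_main0 (hfin : T_fin) (hsep : T_sep) (hpoly : T_poly)
    (K : Type) [Field K] [NumberField K] (E : WeierstrassCurve K)
    (hE : ShortIntegral E) (hO : SmallRank E) (M0 : ℕ) (hM1 : 1 ≤ M0) (hM : ShaKilledBy E M0)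
    (n : ℕ) (S : Set (MvPolynomial (Fin n × Fin 3) K)) (hS : ∀ f ∈ S, ∃ d, MultiHom d f)
    (hX : {y : Fin n → E.toAffine.Point | OnX S (fun i => crd (y i))}.Finite)
    (F : Type) [Field F] [Algebra K F] (hfg : (⊤ : IntermediateField K F).FG)
    (hF : ∃ t : F, Transcendental K t ∧
      Algebra.IsAlgebraic (IntermediateField.adjoin K {t}) F)
    (P : Fin n → (E.baseChange F).toAffine.Point)
    (hPS : OnX S (fun i => crd (P i)))
    (hPn : ∃ i, ∀ y : E.toAffine.Point, P i ≠ locHom (L := F) E y) :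
    ∃ D : Set (ValuationSubring F), D.Finite ∧
      (∀ O ∈ D, O ≠ ⊤ ∧ ∀ c : K, algebraMap K F c ∈ O) ∧
      ∀ C : Set (ValuationSubring F), (∀ O ∈ C, ∀ c : K, algebraMap K F c ∈ O) → Disjoint C D →
      ∀ (Ω M B : Type) [Field Ω] [Field M] [Field B] [Algebra F Ω] [Algebra K Ω]
        [IsScalarTower K F Ω] [IsAlgClosure F Ω] [Algebra F M] [Algebra K M]
        [IsScalarTower K F M] [Algebra K B] [IsAlgClosure K B] (e : M →ₐ[F] Ω),
      unramified F Ω C ≤ e.fieldRange → ∀ (s : GalSection K F M B)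
        (p : ∀ v : HeightOneSpectrum (𝓞 K), Plc K M (AlgebraicClosure (v.adicCompletion K))),
      (∀ v, s.GivenBy (v.adicCompletion K) (p v)) →
      ∃ (x : Fin n → E.toAffine.Point) (O : ValuationSubring F) (v : HeightOneSpectrum (𝓞 K)),
        OnX S (fun i => crd (x i)) ∧
        (∀ v i, (p v).Spec (fun j => algebraMap F M (crd (P i) j))
          (fun j => algebraMap K (AlgebraicClosure (v.adicCompletion K)) (crd (x i) j))) ∧
        (∀ i, s.SameKummer E (P i) (x i)) ∧
        O ≠ ⊤ ∧ (∀ c : K, algebraMap K F c ∈ O) ∧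
        (∀ a ∈ O, ∃ c : K, O.valuation (a - algebraMap K F c) < 1) ∧
        (p v).W.comap (algebraMap F M) = O := by
  obtain ⟨hell, h1, h2, h3, h4, h6⟩ := hE
  obtain ⟨a, b, rfl⟩ := short_eq_sw h1 h2 h3
  have hE : ShortInt (sw a b) :=
    { h1 := h1, h2 := h2, h3 := h3, ia := h4, ib := h6, disc := disc_of_elliptic hell }
  exact punct_of_fin hfin hsep hpoly hE (finProp_of hE hO n) hM1 hM S hS hX F hfg hF P hPS hPn

end Pool.Agent.TH954.P
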