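import Pool.Agent.TH954.P.Main

/-!
# Rational valuation rings and specialization
-/

set_option autoImplicit false
set_option linter.unusedSectionVars false

open IsDedekindDomain NumberField WeierstrassCurve MvPolynomial

namespace Pool.Agent.TH954.P

open Pool.Agent.TH954 Pool.Agent.TH942

/-- the place of a valuation ring with residue field `K` -/
lemma exists_plc {K F : Type} [Field K] [Field F] [Algebra K F] (O : ValuationSubring F)
    (hK : ∀ c : K, algebraMap K F c ∈ O)
    (hres : ∀ a ∈ O, ∃ c : K, O.valuation (a - algebraMap K F c) < 1) :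
    ∃ pl : Plc K F K, pl.W = O := by
  classical
  let f : K →+* IsLocalRing.ResidueField O :=
    (IsLocalRing.residue O).comp ((algebraMap K F).codRestrict O.toSubring hK)
  have hf : Function.Bijective f := by
    refine ⟨f.injective, fun y => ?_⟩
    obtain ⟨a, rfl⟩ := IsLocalRing.residue_surjective y
    obtain ⟨c, hc⟩ := hres a a.2
    refine ⟨c, ?_⟩
    have h1 : a - (algebraMap K F).codRestrict O.toSubring hK c ∈ IsLocalRing.maximalIdeal O := by
      rw [ValuationSubring.valuation_lt_one_iff]
      exact hc
    have h2 := (IsLocalRing.residue_eq_zero_iff _).2 h1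
    rw [map_sub, sub_eq_zero] at h2
    exact h2.symm
  let g := RingEquiv.ofBijective f hf
  refine ⟨{ W := O, ρ := (g.symm : IsLocalRing.ResidueField O →+* K).comp (IsLocalRing.residue O)
            loc := ?_, comm := ?_ }, rfl⟩
  · intro x hx
    have h1 : IsUnit x := by
      by_contra hcon
      apply hx
      have h2 : x ∈ IsLocalRing.maximalIdeal O := (IsLocalRing.mem_maximalIdeal _).2 hcon
      change g.symm (IsLocalRing.residue O x) = 0
      rw [(IsLocalRing.residue_eq_zero_iff _).2 h2, map_zero]
    obtain ⟨y, hy⟩ := h1.exists_right_inv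
    have h3 : (x : F)⁻¹ = y := by
      refine (eq_inv_of_mul_eq_one_right ?_).symm
      have := congrArg (fun z : O => (z : F)) hy
      exact this
    rw [h3]
    exact y.2
  · intro c
    refine ⟨hK c, ?_⟩
    change g.symm (g c) = c
    exact g.symm_apply_apply c

open scoped Classical in
/-- points over `K` -/
lemma exists_locK {K : Type} [Field K] (E : WeierstrassCurve K)
    (T : (E.baseChange K).toAffine.Point) : ∃ y : E.toAffine.Point, locHom (L := K) E y = T := by
  rcases T with _ | ⟨x, y, h⟩
  · exact ⟨0, map_zero _⟩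
  · have h' : E.toAffine.Nonsingular x y :=
      (Affine.map_nonsingular (W := E.toAffine) (f := algebraMap K K)
        (algebraMap K K).injective x y).1 h
    obtain ⟨h'', e⟩ := locHom_some (L := K) E h'
    refine ⟨.some x y h', ?_⟩
    rw [e]
    rfl

open scoped Classical in
lemma pm_locK {K : Type} [Field K] {E : WeierstrassCurve K} {L : Type} [Field L] [Algebra K L]
    (f : K →ₐ[K] L) (y : E.toAffine.Point) :
    pm E f (locHom (L := K) E y) = locHom (L := L) E y := by
  match y with
  | .zero => rfl
  | .some x y h =>
    change Affine.Point.some (f (algebraMap K K x)) (f (algebraMap K K y)) _ =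
      Affine.Point.some (algebraMap K L x) (algebraMap K L y) _
    have e : ∀ t : K, f (algebraMap K K t) = algebraMap K L t := fun t => f.commutes t
    congr 1 <;> exact e _

open scoped Classical in
/-- **Specialization.** A rational valuation ring lies over a rational point. -/
theorem rat_pole {K : Type} [Field K] [CharZero K] {a b : K} (hD : 4 * a ^ 3 + 27 * b ^ 2 ≠ 0)
    {n : ℕ} {S : Set (MvPolynomial (Fin n × Fin 3) K)} (hS : ∀ f ∈ S, ∃ d, MultiHom d f)
    {F : Type} [Field F] [Algebra K F]
    {P : Fin n → ((sw a b).baseChange F).toAffine.Point} (hPS : OnX S (fun i => crd (P i)))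
    (O : ValuationSubring F) (hK : ∀ c : K, algebraMap K F c ∈ O)
    (hres : ∀ a ∈ O, ∃ c : K, O.valuation (a - algebraMap K F c) < 1) :
    ∃ y : Fin n → SPt a b, OnX S (fun i => crd (y i)) ∧
      ∀ (i : Fin n) (x0 y0 : F) (h : ((sw a b).baseChange F).toAffine.Nonsingular x0 y0),
        P i - locHom (L := F) (sw a b) (y i) = .some x0 y0 h → x0 ∉ O := by
  obtain ⟨pl, rfl⟩ := exists_plc O hK hres
  obtain ⟨red, h1, h2⟩ := exists_redM pl hD
  choose y hy using fun i => exists_locK (sw a b) (red (P i))
  refine ⟨y, ?_, ?_⟩
  · have h3 : OnX S (fun i => crd (red (P i))) :=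
      onX_red pl hS (fun i => red_crd (pl := pl) (red := red) (map_zero red) h1 h2 (P i)) hPS
    have h4 : (fun i => crd (red (P i))) = fun i => crd (y i) := by
      funext i j
      rw [← hy i]
      exact crd_loc (sw a b) (y i) j
    rw [h4] at h3
    exact h3
  · intro i x0 y0 h hPi hx0
    have h3 : red (P i - locHom (L := F) (sw a b) (y i)) = 0 := by
      rw [map_sub, ← hy i, ← pm_locK (Algebra.ofId K F) (y i),
        red_pm (pl := pl) (a := a) (b := b) (red := red) (map_zero red) h1 h2 (Algebra.ofId K F)
        (AlgHom.id K K) (fun z => pl.comm z), pm_locK (AlgHom.id K K) (y i), sub_self]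
    rw [hPi] at h3
    obtain ⟨_, _, h4⟩ := h2 _ _ h hx0
    rw [h4] at h3
    exact Affine.Point.some_ne_zero _ h3

end Pool.Agent.TH954.P
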