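import Pool.Agent.TH954.P.Main2
import Pool.Agent.TH954.P.Rat

/-!
# Sections of fundamental groups of open curves and rational points: the theorem (2)
-/

set_option autoImplicit false
set_option linter.unusedSectionVars false

open IsDedekindDomain NumberField WeierstrassCurve MvPolynomial

namespace Pool.Agent.TH954.P

open Pool.Agent.TH954 Pool.Agent.TH942 Pool.Agent.W620.SC

open scoped Classical in
theorem punct2_of_fin (hfin : T_fin) (hsep : T_sep2) (hpoly : T_poly) (hinc : T_inc)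
    (hloc : T_loc) (hgal : T_gal) (hsah : T_sah)
    {K : Type} [Field K] [NumberField K] {a b : K} (hE : ShortInt (sw a b)) {n : ℕ}
    (hfn : FinProp a b (⊤ : AddSubgroup (SPt a b)) n) {M0 : ℕ} (hM1 : 1 ≤ M0)
    (hM : ShaKilledBy (sw a b) M0)
    (S : Set (MvPolynomial (Fin n × Fin 3) K)) (hS : ∀ f ∈ S, ∃ d, MultiHom d f)
    (hX : {y : Fin n → SPt a b | OnX S (fun i => crd (y i))}.Finite)
    (F : Type) [Field F] [Algebra K F] (hfg : (⊤ : IntermediateField K F).FG)
    (hF : ∃ t : F, Transcendental K t ∧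
      Algebra.IsAlgebraic (IntermediateField.adjoin K {t}) F)
    (P : Fin n → ((sw a b).baseChange F).toAffine.Point)
    (hPS : OnX S (fun i => crd (P i)))
    (hPn : ∃ i, ∀ y : SPt a b, P i ≠ locHom (L := F) (sw a b) y) :
    ∃ D : Set (ValuationSubring F), D.Finite ∧
      (∀ O ∈ D, O ≠ ⊤ ∧ (∀ c : K, algebraMap K F c ∈ O) ∧
        ∃ a ∈ O, ∀ c : K, ¬ O.valuation (a - algebraMap K F c) < 1) ∧
      ∀ C : Set (ValuationSubring F), (∀ O ∈ C, ∀ c : K, algebraMap K F c ∈ O) → Disjoint C D →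
      ∀ (Ω M B : Type) [Field Ω] [Field M] [Field B] [Algebra F Ω] [Algebra K Ω]
        [IsScalarTower K F Ω] [IsAlgClosure F Ω] [Algebra F M] [Algebra K M]
        [IsScalarTower K F M] [Algebra K B] [IsAlgClosure K B] (e : M →ₐ[F] Ω),
      unramified F Ω C ≤ e.fieldRange → ∀ (s : GalSection K F M B)
        (p : ∀ v : HeightOneSpectrum (𝓞 K), Plc K M (AlgebraicClosure (v.adicCompletion K))),
      (∀ v, s.GivenBy (v.adicCompletion K) (p v)) →
      ∃ (x : Fin n → SPt a b) (O : ValuationSubring F),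
        OnX S (fun i => crd (x i)) ∧
        (∀ v i, (p v).Spec (fun j => algebraMap F M (crd (P i) j))
          (fun j => algebraMap K (AlgebraicClosure (v.adicCompletion K)) (crd (x i) j))) ∧
        (∀ i, s.SameKummer (sw a b) (P i) (x i)) ∧
        O ≠ ⊤ ∧ (∀ c : K, algebraMap K F c ∈ O) ∧
        (∀ a ∈ O, ∃ c : K, O.valuation (a - algebraMap K F c) < 1) ∧
        ∀ v, (p v).W.comap (algebraMap F M) = O := by
  obtain ⟨i, hPi⟩ := hPn
  -- the functions
  have hz : ∀ y : SPt a b, ∃ z z' : F,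
      ∃ h : ((sw a b).baseChange F).toAffine.Nonsingular z z',
        P i - locHom (L := F) (sw a b) y = .some z z' h := by
    intro y
    rcases h : P i - locHom (L := F) (sw a b) y with _ | ⟨z, z', h'⟩
    · exact absurd (sub_eq_zero.1 h) (hPi y)
    · exact ⟨z, z', h', rfl⟩
  choose z z' hzz hz using hz
  obtain ⟨D, hDf, hDv, hD⟩ := punct_of_funcs hfin hsep hpoly hinc hloc hgal hsah hfg hF
    (hX.toFinset.image (fun y => z (y i)))
  refine ⟨D, hDf, fun O hO => ⟨(hDv O hO).1, (hDv O hO).2.1, ?_⟩, ?_⟩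
  · by_contra hcon
    push Not at hcon
    obtain ⟨y, hy, hyO⟩ := rat_pole (K := K) hE.disc hS hPS O (hDv O hO).2.1 hcon
    exact hyO i _ _ _ (hz (y i)) ((hDv O hO).2.2 _ (Finset.mem_image.2
      ⟨y, (Set.Finite.mem_toFinset _).2 hy, rfl⟩))
  · intro C hC hCD Ω M B _ _ _ _ _ _ _ _ _ _ _ _ e he s p hp
    obtain ⟨x, hxS, hx, hxs, hxz⟩ := et_of_fin2 hE hfn hM1 hM S hS hX C hC e he P hPS s p hp
    obtain ⟨O, h1, h2, h3, h4⟩ := hD C hC hCD Ω M B e he s p hp (z (x i)) (Finset.mem_image.2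
      ⟨x, (Set.Finite.mem_toFinset _).2 hxS, rfl⟩) (hxz i _ _ _ (hz (x i)))
    exact ⟨x, O, hxS, hx, hxs, h1, h2, h3, h4⟩

open scoped Classical in
theorem punct2_main0 (hfin : T_fin) (hsep : T_sep2) (hpoly : T_poly) (hinc : T_inc)
    (hloc : T_loc) (hgal : T_gal) (hsah : T_sah)
    (K : Type) [Field K] [NumberField K] (E : WeierstrassCurve K)
    (hE : ShortIntegral E) (hO : SmallRank E) (M0 : ℕ) (hM1 : 1 ≤ M0) (hM : ShaKilledBy E M0)
    (n : ℕ) (S : Set (MvPolynomial (Fin n × Fin 3) K)) (hS : ∀ f ∈ S, ∃ d, MultiHom d f)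
    (hX : {y : Fin n → E.toAffine.Point | OnX S (fun i => crd (y i))}.Finite)
    (F : Type) [Field F] [Algebra K F] (hfg : (⊤ : IntermediateField K F).FG)
    (hF : ∃ t : F, Transcendental K t ∧
      Algebra.IsAlgebraic (IntermediateField.adjoin K {t}) F)
    (P : Fin n → (E.baseChange F).toAffine.Point)
    (hPS : OnX S (fun i => crd (P i)))
    (hPn : ∃ i, ∀ y : E.toAffine.Point, P i ≠ locHom (L := F) E y) :
    ∃ D : Set (ValuationSubring F), D.Finite ∧
      (∀ O ∈ D, O ≠ ⊤ ∧ (∀ c : K, algebraMap K F c ∈ O) ∧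
        ∃ a ∈ O, ∀ c : K, ¬ O.valuation (a - algebraMap K F c) < 1) ∧
      ∀ C : Set (ValuationSubring F), (∀ O ∈ C, ∀ c : K, algebraMap K F c ∈ O) → Disjoint C D →
      ∀ (Ω M B : Type) [Field Ω] [Field M] [Field B] [Algebra F Ω] [Algebra K Ω]
        [IsScalarTower K F Ω] [IsAlgClosure F Ω] [Algebra F M] [Algebra K M]
        [IsScalarTower K F M] [Algebra K B] [IsAlgClosure K B] (e : M →ₐ[F] Ω),
      unramified F Ω C ≤ e.fieldRange → ∀ (s : GalSection K F M B)
        (p : ∀ v : HeightOneSpectrum (𝓞 K), Plc K M (AlgebraicClosure (v.adicCompletion K))),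
      (∀ v, s.GivenBy (v.adicCompletion K) (p v)) →
      ∃ (x : Fin n → E.toAffine.Point) (O : ValuationSubring F),
        OnX S (fun i => crd (x i)) ∧
        (∀ v i, (p v).Spec (fun j => algebraMap F M (crd (P i) j))
          (fun j => algebraMap K (AlgebraicClosure (v.adicCompletion K)) (crd (x i) j))) ∧
        (∀ i, s.SameKummer E (P i) (x i)) ∧
        O ≠ ⊤ ∧ (∀ c : K, algebraMap K F c ∈ O) ∧
        (∀ a ∈ O, ∃ c : K, O.valuation (a - algebraMap K F c) < 1) ∧
        ∀ v, (p v).W.comap (algebraMap F M) = O := by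
  obtain ⟨hell, h1, h2, h3, h4, h6⟩ := hE
  obtain ⟨a, b, rfl⟩ := short_eq_sw h1 h2 h3
  have hE : ShortInt (sw a b) :=
    { h1 := h1, h2 := h2, h3 := h3, ia := h4, ib := h6, disc := disc_of_elliptic hell }
  exact punct2_of_fin hfin hsep hpoly hinc hloc hgal hsah hE (finProp_of hE hO n) hM1 hM S hS hX F
    hfg hF P hPS hPn

end Pool.Agent.TH954.P
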