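import Mathlib
import Pool.Agent.TH954.P.Stmts2

/-!
# The image of the Galois group of a number field in the cyclotomic Galois groups
-/

set_option autoImplicit false

namespace Pool.Agent.TH954.P

/-- an automorphism over `ℚ` raising a primitive root of unity to the power `x` -/
theorem gal_aux (L : Type) [Field L] [CharZero L] [Algebra ℚ L] [Normal ℚ L] (x N : ℕ) (hN : 1 ≤ N)
    (hx : Nat.Coprime x N) (ζ : L) (hζ : IsPrimitiveRoot ζ N) : ∃ σ : L ≃ₐ[ℚ] L, σ ζ = ζ ^ x := by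
  have hN' : 0 < N := hN
  have h2 := Polynomial.cyclotomic_eq_minpoly_rat hζ hN'
  have h3 := Polynomial.cyclotomic_eq_minpoly_rat (hζ.pow_of_coprime x hx) hN'
  have h1 : IsConjRoot ℚ (ζ ^ x) ζ := by
    rw [isConjRoot_def]
    have e : (DivisionRing.toRatAlgebra : Algebra ℚ L) = ‹Algebra ℚ L› := Subsingleton.elim _ _
    subst e
    rw [← h2, ← h3]
  obtain ⟨σ, hσ⟩ := isConjRoot_iff_exists_algEquiv.1 h1
  exact ⟨σ, hσ⟩

/-- a fixed power of every automorphism fixes a given finite extension -/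
theorem gal_aux2 (F K L : Type) [Field F] [Field K] [Field L] [Algebra F K] [Algebra K L]
    [Algebra F L] [IsScalarTower F K L] [FiniteDimensional F K] [Normal F L] :
    ∃ D : ℕ, 1 ≤ D ∧ ∀ (σ : L ≃ₐ[F] L) (k : K), (σ ^ D) (algebraMap K L k) = algebraMap K L k := by
  obtain ⟨E, hE1, hE2, hE3⟩ : ∃ E : IntermediateField F L, Normal F E ∧ FiniteDimensional F E ∧
      ∀ k : K, algebraMap K L k ∈ E := by
    refine ⟨IntermediateField.normalClosure F K L, normalClosure.normal F K L,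
      normalClosure.is_finiteDimensional F K L, fun k => ?_⟩
    exact AlgHom.fieldRange_le_normalClosure (IsScalarTower.toAlgHom F K L) ⟨k, rfl⟩
  refine ⟨Nat.card (E ≃ₐ[F] E), Nat.card_pos, fun σ k => ?_⟩
  have h1 : AlgEquiv.restrictNormalHom (F := F) E (σ ^ (Nat.card (E ≃ₐ[F] E))) = 1 := by
    rw [map_pow]; exact pow_card_eq_one'
  have h3 := AlgEquiv.restrictNormalHom_apply (F := F) E (σ ^ (Nat.card (E ≃ₐ[F] E))) ⟨_, hE3 k⟩
  rw [h1] at h3
  exact h3.symm

theorem gal : T_gal := by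
  intro K _ _
  have : Algebra.IsAlgebraic ℚ (AlgebraicClosure K) := Algebra.IsAlgebraic.trans ℚ K (AlgebraicClosure K)
  have : IsAlgClosure ℚ (AlgebraicClosure K) := ⟨inferInstance, inferInstance⟩
  have : Normal ℚ (AlgebraicClosure K) := IsAlgClosure.normal ℚ (AlgebraicClosure K)
  obtain ⟨D, hD, hD2⟩ := gal_aux2 ℚ K (AlgebraicClosure K)
  refine ⟨D, hD, ?_⟩
  intro x N hN hx ζ hζ
  obtain ⟨σ, hσ⟩ := gal_aux (AlgebraicClosure K) x N hN hx ζ hζ
  have h4 : ∀ m : ℕ, (σ ^ m) ζ = ζ ^ (x ^ m) := by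
    intro m
    induction m with
    | zero => simp
    | succ m ih =>
      rw [pow_succ, AlgEquiv.mul_apply, hσ, map_pow, ih, ← pow_mul, pow_succ]
  refine ⟨AlgEquiv.ofRingEquiv (f := (σ ^ D).toRingEquiv) (hD2 σ), ?_⟩
  exact h4 D

end Pool.Agent.TH954.P
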