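import Pool.Agent.TH954.P.Poly
import Pool.Agent.TH954.P.Stmts2

/-!
# The zeros of a function of a function field of one variable are incomparable
-/

set_option autoImplicit false

namespace Pool.Agent.TH954.P

theorem inc : T_inc := by
  intro K F _ _ _ _ w hw hF W W' hK hwW hwW' hle
  refine le_antisymm hle ?_
  intro x hx
  by_contra hxW
  have hx0 : x ≠ 0 := by
    rintro rfl
    exact hxW W.zero_mem
  have htW : x⁻¹ ∈ W := (W.mem_or_inv_mem x).resolve_left hxW
  have htW' : x⁻¹ ∈ W' := hle htW
  have ht1 : W.valuation x⁻¹ < 1 := by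
    rw [← ValuationSubring.mem_nonunits_iff, ValuationSubring.mem_nonunits_iff_or, inv_inv]
    exact Or.inr hxW
  have ht2 : W'.valuation x⁻¹ = 1 := by
    refine le_antisymm ((ValuationSubring.valuation_le_one_iff _ _).2 htW') ?_
    by_contra hcon
    rw [not_le, ← ValuationSubring.mem_nonunits_iff, ValuationSubring.mem_nonunits_iff_or,
      inv_inv] at hcon
    rcases hcon with h | h
    · exact inv_ne_zero hx0 h
    · exact h hx
  obtain ⟨g, hg0, hg⟩ := poly K F w x⁻¹ hw hF
  have hgW' := hg W' (fun c => hle (hK c)) hwW' htW'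
  -- split off the power of the variable
  obtain ⟨g1, hg1, hnd⟩ := Polynomial.exists_eq_pow_rootMultiplicity_mul_and_not_dvd g hg0 0
  rw [map_zero, sub_zero] at hg1 hnd
  rw [Polynomial.X_dvd_iff] at hnd
  have hg1W' : W'.valuation (Polynomial.aeval x⁻¹ g1) < 1 := by
    rw [hg1, map_mul, map_mul, map_pow, Polynomial.aeval_X, map_pow, ht2, one_pow, one_mul] at hgW'
    exact hgW'
  have hg1W : W.valuation (Polynomial.aeval x⁻¹ g1) < 1 := by
    rw [← ValuationSubring.mem_nonunits_iff] at hg1W' ⊢
    exact ValuationSubring.nonunits_le_nonunits.2 hle hg1W'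
  have hmem : ∀ q : Polynomial K, Polynomial.aeval x⁻¹ q ∈ W := by
    intro q
    induction q using Polynomial.induction_on' with
    | add p q hp hq => rw [map_add]; exact W.add_mem _ _ hp hq
    | monomial n a =>
      rw [Polynomial.aeval_monomial]
      exact W.mul_mem _ _ (hK a) (pow_mem htW n)
  have hdec : Polynomial.aeval x⁻¹ g1 = x⁻¹ * Polynomial.aeval x⁻¹ g1.divX +
      algebraMap K F (g1.coeff 0) := by
    conv_lhs => rw [← Polynomial.X_mul_divX_add g1]
    rw [map_add, map_mul, Polynomial.aeval_X, Polynomial.aeval_C]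
  have hc1 : W.valuation (algebraMap K F (g1.coeff 0)) < 1 := by
    have e1 : algebraMap K F (g1.coeff 0) =
        Polynomial.aeval x⁻¹ g1 - x⁻¹ * Polynomial.aeval x⁻¹ g1.divX := by
      rw [hdec]; ring
    rw [e1]
    refine lt_of_le_of_lt (Valuation.map_sub _ _ _) (max_lt hg1W ?_)
    rw [map_mul]
    exact mul_lt_one_of_lt_of_le ht1 ((ValuationSubring.valuation_le_one_iff _ _).2 (hmem _))
  rw [← ValuationSubring.mem_nonunits_iff, ValuationSubring.mem_nonunits_iff_or] at hc1
  rcases hc1 with h | h
  · exact hnd ((map_eq_zero _).1 h)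
  · apply h
    rw [← map_inv₀]
    exact hK _

end Pool.Agent.TH954.P
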