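import Pool.Agent.TH954.SEt2

/-!
# Kummer theory for sections of fundamental groups of open curves
-/

set_option autoImplicit false
set_option linter.unusedSectionVars false

open IsDedekindDomain NumberField

namespace Pool.Agent.TH954

/-- **Kummer theory.** An element of the fixed field with an `n`-th root is an `n`-th power up to a
constant. -/
theorem SAct.kummer_root {K : Type} [Field K] [CharZero K] {M : Type} [Field M] [Algebra K M]
    (A : SAct K M) {f : M} (hf : f ∈ A.fix) (hf0 : f ≠ 0) {n : ℕ} (hn : 0 < n) {w : M}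
    (hw : w ^ n = f) :
    ∃ c : K, c ≠ 0 ∧ ∃ g ∈ A.fix, f = algebraMap K M c * g ^ n := by
  classical
  have : IsGalois K (AlgebraicClosure K) := ⟨⟩
  have hw0 : w ≠ 0 := by
    rintro rfl
    rw [zero_pow hn.ne'] at hw
    exact hf0 hw.symm
  obtain ⟨E, hE, hEw⟩ := A.cont w
  obtain ⟨β, hβ0, hβ⟩ := Pool.Agent.W620.SC.exists_fixed_multiple A.ra
    (A.j : AlgebraicClosure K →+* M) (fun σ a => A.hj σ a) ⊤ w hw0 (by
      intro σ _
      have h1 : (A.s σ w / w) ^ n = 1 := by
        rw [div_pow, ← map_pow, hw, hf σ, div_self hf0]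
      obtain ⟨ζ, hζ⟩ := Pool.Agent.W620.SC.root_mem (A.j : AlgebraicClosure K →+* M) hn
        (h := A.s σ w / w) (b := 1) (by rw [h1, map_one])
      refine ⟨ζ, ?_⟩
      rw [hζ]
      change A.s σ w = A.s σ w / w * w
      rw [div_mul_cancel₀ _ hw0]) E (by
      intro σ hσ
      exact hEw σ (fun z hz => (IntermediateField.mem_fixingSubgroup_iff _ _).1 hσ z hz))
  have hg : A.j β * w ∈ A.fix := fun τ => hβ τ (Subgroup.mem_top τ)
  have hβn : A.j (β ^ n) ∈ A.fix := by
    have e : A.j (β ^ n) = (A.j β * w) ^ n / f := by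
      rw [mul_pow, hw, map_pow, mul_div_assoc, div_self hf0, mul_one]
    rw [e]
    exact div_mem (pow_mem hg n) hf
  obtain ⟨c, hc⟩ := A.fix_j hβn
  have hc0 : c ≠ 0 := by
    rintro rfl
    rw [map_zero] at hc
    exact pow_ne_zero n hβ0 hc.symm
  refine ⟨c⁻¹, inv_ne_zero hc0, _, hg, ?_⟩
  have e : algebraMap K M c = A.j β ^ n := by
    rw [← A.j.commutes c, hc, map_pow]
  rw [map_inv₀, e, mul_pow, hw, inv_mul_cancel_left₀]
  exact pow_ne_zero _ ((map_ne_zero A.j).2 hβ0)

/-- units on the curve have roots of all orders in the field `F_U` -/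
theorem exists_root_unram {K F Ω M : Type} [Field K] [CharZero K] [Field F] [Field Ω] [Field M]
    [Algebra K F] [Algebra F Ω] [Algebra K Ω] [IsScalarTower K F Ω] [IsAlgClosed Ω] [Algebra F M]
    (U : Set (ValuationSubring F)) (hU : ∀ O ∈ U, ∀ c : K, algebraMap K F c ∈ O)
    (e : M →ₐ[F] Ω) (he : Pool.Agent.W620.SC.unramified F Ω U ≤ e.fieldRange) {f : F}
    (hf0 : f ≠ 0) (hf : ∀ O ∈ U, f ∈ O ∧ f⁻¹ ∈ O) {n : ℕ} (hn : 0 < n) :
    ∃ w : M, w ^ n = algebraMap F M f := by
  have hcΩ : CharZero Ω := charZero_of_injective_algebraMap (algebraMap K Ω).injective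
  obtain ⟨w, hw⟩ := IsAlgClosed.exists_pow_nat_eq (algebraMap F Ω f) hn
  have hmem : w ∈ Pool.Agent.W620.SC.unramified F Ω U := by
    rw [Pool.Agent.W620.SC.mem_unramified]
    intro W hW σ hσ
    have hw0 : w ≠ 0 := by
      rintro rfl
      rw [zero_pow hn.ne'] at hw
      exact hf0 ((map_eq_zero _).1 hw.symm)
    have hfW := hf _ hW
    refine Pool.Agent.W620.SC.inertia_root (k := K) (fun c => ?_) hσ hn (t := 1) ?_ (map_one σ)
      one_ne_zero hw0 ?_ ?_
    · have := hU _ hW c
      rw [ValuationSubring.mem_comap, ← IsScalarTower.algebraMap_apply] at this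
      exact this
    · rw [hw]
      exact σ.commutes f
    · rw [one_pow, div_one, hw]
      exact hfW.1
    · rw [one_pow, one_div, hw, ← map_inv₀]
      exact hfW.2
  obtain ⟨w', hw'⟩ := he hmem
  refine ⟨w', e.injective ?_⟩
  rw [map_pow]
  change (e w') ^ n = e (algebraMap F M f)
  have : e w' = w := hw'
  rw [this, hw, e.commutes]

end Pool.Agent.TH954
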