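import Pool.Agent.TH954.P.Stmts2

/-!
Target `loc` (job 5190 of helper954, written by helper644): a nonzero element of the completion at
`v` which is not a root of unity is not a `p ^ k`-th power for large `k`.
-/

set_option autoImplicit false

open IsDedekindDomain NumberField

namespace Pool.Agent.TH954.P.Loc

open WithZero

lemma le_of_lt_one {z : WithZero (Multiplicative ℤ)} (h : z < 1) : z ≤ exp (-1 : ℤ) := by
  by_cases hz : z = 0
  · rw [hz]
    exact zero_le
  · have h1 : exp (log z) = z := exp_log hz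
    rw [← h1] at h ⊢
    rw [← exp_zero, exp_lt_exp] at h
    rw [exp_le_exp]
    omega

section

variable {L : Type*} [Field L] (V : Valuation L (WithZero (Multiplicative ℤ)))

lemma pow_close {x : L} (h : V (x - 1) < 1) : ∀ i : ℕ, V (x ^ i - 1) < 1 := by
  have hx : V x ≤ 1 := by
    have e : x = (x - 1) + 1 := by ring
    rw [e]
    refine (V.map_add _ _).trans (max_le h.le ?_)
    rw [map_one]
  intro i
  induction i with
  | zero => simp
  | succ i ih =>
    have e : x ^ (i + 1) - 1 = x ^ i * (x - 1) + (x ^ i - 1) := by ring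
    rw [e]
    refine V.map_add_lt ?_ ih
    rw [map_mul, map_pow]
    calc V x ^ i * V (x - 1) ≤ 1 * V (x - 1) := mul_le_mul' (pow_le_one' hx i) le_rfl
      _ = V (x - 1) := one_mul _
      _ < 1 := h

lemma step {p : ℕ} (hV : V (p : L) < 1) {x : L} {j : ℕ} (hj : V (x - 1) ≤ exp (-((j : ℤ) + 1))) :
    V (x ^ p - 1) ≤ exp (-(((j + 1 : ℕ) : ℤ) + 1)) := by
  have hlt : V (x - 1) < 1 := by
    refine hj.trans_lt ?_
    rw [← exp_zero, exp_lt_exp]
    omega
  have h1 : V (∑ i ∈ Finset.range p, x ^ i) < 1 := by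
    have e : ∑ i ∈ Finset.range p, x ^ i = ∑ i ∈ Finset.range p, (x ^ i - 1) + p := by
      rw [Finset.sum_sub_distrib]
      simp
    rw [e]
    refine V.map_add_lt (V.map_sum_lt one_ne_zero fun i _ => pow_close V hlt i) hV
  rw [← mul_geom_sum, map_mul]
  have e : exp (-(((j + 1 : ℕ) : ℤ) + 1)) = exp (-((j : ℤ) + 1)) * exp (-1 : ℤ) := by
    rw [← exp_add]
    congr 1
  rw [e]
  exact mul_le_mul' hj (le_of_lt_one h1)

lemma steps {p : ℕ} (hV : V (p : L) < 1) {x : L} (hx : V (x - 1) < 1) (j : ℕ) :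
    V (x ^ (p ^ j) - 1) ≤ exp (-((j : ℤ) + 1)) := by
  induction j with
  | zero =>
    rw [pow_zero, pow_one]
    have := le_of_lt_one hx
    simpa using this
  | succ j ih =>
    have := step V hV ih
    rwa [← pow_mul, ← pow_succ] at this

theorem main {p m : ℕ} (hp : p.Prime) (hV : V (p : L) < 1) (hm : 1 ≤ m)
    (hF : ∀ x : L, V x = 1 → V (x ^ m - 1) < 1) {q : L} (hq : q ≠ 0)
    (hr : ∀ n : ℕ, 1 ≤ n → q ^ n ≠ 1) : ∃ k : ℕ, ∀ z : L, z ^ (p ^ k) ≠ q := by
  by_contra hcon
  push Not at hcon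
  choose z hz using hcon
  have hVq0 : V q ≠ 0 := (V.ne_zero_iff).2 hq
  -- the valuation of `q`
  have hVq : V q = 1 := by
    have h1 : log (V q) = 0 := by
      by_contra hne
      obtain ⟨k, hk⟩ : ∃ k, k = (log (V q)).natAbs := ⟨_, rfl⟩
      have h2 : log (V q) = (p ^ k : ℕ) * log (V (z k)) := by
        conv_lhs => rw [← hz k]
        rw [map_pow, log_pow, nsmul_eq_mul]
      have h3 : ((p ^ k : ℕ) : ℤ) ∣ log (V q) := ⟨_, h2⟩
      have h4 : p ^ k ∣ (log (V q)).natAbs := Int.natCast_dvd.1 h3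
      rw [← hk] at h4
      have h5 : 0 < k := by
        rw [hk]
        exact Int.natAbs_pos.2 hne
      have h6 := Nat.le_of_dvd h5 h4
      exact absurd h6 (not_le.2 (Nat.lt_pow_self hp.one_lt))
    rw [← exp_log hVq0, h1, exp_zero]
  have hVz : ∀ k, V (z k) = 1 := by
    intro k
    have h1 : V (z k) ^ (p ^ k) = 1 := by rw [← map_pow, hz k, hVq]
    exact (pow_eq_one_iff.1 h1).resolve_right (pow_ne_zero k hp.ne_zero)
  have hle : ∀ k : ℕ, V (q ^ m - 1) ≤ exp (-((k : ℤ) + 1)) := by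
    intro k
    have h1 := steps V hV (hF _ (hVz k)) k
    rwa [← pow_mul, mul_comm, pow_mul, hz k] at h1
  have h0 : V (q ^ m - 1) = 0 := by
    by_contra hne
    have h1 := hle (log (V (q ^ m - 1))).natAbs
    rw [← exp_log hne, exp_le_exp, log_exp] at h1
    omega
  have h1 : q ^ m - 1 = 0 := (V.zero_iff).1 h0
  exact hr m hm (sub_eq_zero.1 h1)

end

variable (K : Type) [Field K] [NumberField K] (v : HeightOneSpectrum (𝓞 K))

lemma val_int (r : 𝓞 K) : Valued.v (algebraMap K (v.adicCompletion K) (algebraMap (𝓞 K) K r)) =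
    v.valuation K (algebraMap (𝓞 K) K r) := by
  rw [HeightOneSpectrum.algebraMap_adicCompletion]
  exact HeightOneSpectrum.valuedAdicCompletion_eq_valuation' v _

lemma val_K (k : K) : Valued.v (algebraMap K (v.adicCompletion K) k) = v.valuation K k := by
  rw [HeightOneSpectrum.algebraMap_adicCompletion]
  exact HeightOneSpectrum.valuedAdicCompletion_eq_valuation' v _

lemma approx (x : v.adicCompletion K) (hx : Valued.v x ≤ 1) :
    ∃ r : 𝓞 K, Valued.v (x - algebraMap K (v.adicCompletion K) (algebraMap (𝓞 K) K r)) < 1 := by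
  have h1 : {y : v.adicCompletion K | Valued.v.restrict (y - x) < 1} ∈ nhds x := by
    rw [Valued.mem_nhds]
    exact ⟨1, fun y hy => hy⟩
  obtain ⟨k, hk⟩ := (HeightOneSpectrum.denseRange_algebraMap K v).mem_nhds h1
  have hk' : Valued.v (algebraMap K (v.adicCompletion K) k - x) < 1 := by
    have h2 : Valued.v.restrict (algebraMap K (v.adicCompletion K) k - x) < 1 := hk
    exact (Valuation.restrict_lt_one_iff _).1 h2
  have hkv : v.valuation K k ≤ 1 := by
    rw [← val_K K v]
    have e : algebraMap K (v.adicCompletion K) k = (algebraMap K (v.adicCompletion K) k - x) + x := by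
      ring
    rw [e]
    exact (Valuation.map_add _ _ _).trans (max_le hk'.le hx)
  obtain ⟨r, hr⟩ := v.exists_valuation_sub_lt_of_integer hkv 1
  refine ⟨r, ?_⟩
  have e : x - algebraMap K (v.adicCompletion K) (algebraMap (𝓞 K) K r) =
      -(algebraMap K (v.adicCompletion K) k - x) -
        algebraMap K (v.adicCompletion K) (algebraMap (𝓞 K) K r - k) := by
    rw [map_sub]
    ring
  rw [e]
  refine Valuation.map_sub_lt _ ?_ ?_
  · rw [Valuation.map_neg]
    exact hk'
  · rw [val_K K v]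
    exact hr

end Pool.Agent.TH954.P.Loc

namespace Pool.Agent.TH954.P

theorem loc : T_loc := by
  intro K _ _ v
  classical
  have : Fintype (𝓞 K ⧸ v.asIdeal) := Fintype.ofFinite _
  have hmax : v.asIdeal.IsMaximal := v.isMaximal
  let _ : Field (𝓞 K ⧸ v.asIdeal) := Ideal.Quotient.field v.asIdeal
  obtain ⟨p, hpc⟩ := CharP.exists (𝓞 K ⧸ v.asIdeal)
  have hp : p.Prime := (CharP.char_is_prime_or_zero (𝓞 K ⧸ v.asIdeal) p).resolve_right
    (CharP.char_ne_zero_of_finite (𝓞 K ⧸ v.asIdeal) p)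
  refine ⟨p, hp, fun q hq hr => ?_⟩
  have hcard : 1 ≤ Fintype.card (𝓞 K ⧸ v.asIdeal) - 1 := by
    have := Fintype.one_lt_card (α := 𝓞 K ⧸ v.asIdeal)
    omega
  refine Loc.main (Valued.v : Valuation (v.adicCompletion K) (WithZero (Multiplicative ℤ))) hp ?_
    hcard ?_ hq hr
  · have h1 : (p : 𝓞 K) ∈ v.asIdeal := by
      rw [← Ideal.Quotient.eq_zero_iff_mem, map_natCast]
      exact CharP.cast_eq_zero _ _
    have h2 := Loc.val_int K v (p : 𝓞 K)
    rw [map_natCast, map_natCast] at h2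
    rw [h2]
    have h3 : v.valuation K (algebraMap (𝓞 K) K (p : 𝓞 K)) < 1 :=
      (v.valuation_lt_one_iff_mem (K := K) (p : 𝓞 K)).2 h1
    rwa [map_natCast] at h3
  · intro x hx
    obtain ⟨r, hr⟩ := Loc.approx K v x hx.le
    obtain ⟨ρ, hρ⟩ : ∃ ρ, ρ = algebraMap K (v.adicCompletion K) (algebraMap (𝓞 K) K r) := ⟨_, rfl⟩
    rw [← hρ] at hr
    have hVρ : Valued.v ρ = (1 : WithZero (Multiplicative ℤ)) := by
      have e : ρ = x - (x - ρ) := by ring
      rw [e]
      have := Valuation.map_sub_eq_of_lt_right (Valued.v : Valuation (v.adicCompletion K)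
        (WithZero (Multiplicative ℤ))) (x := x - ρ) (y := x) (by rw [hx]; exact hr)
      rw [Valuation.map_sub_swap, this, hx]
    have hr1 : r ∉ v.asIdeal := by
      intro h
      have h3 := (v.valuation_lt_one_iff_mem (K := K) r).2 h
      rw [hρ, Loc.val_int K v r] at hVρ
      exact absurd h3 (by
        rw [hVρ]
        exact lt_irrefl _)
    have hr2 : r ^ (Fintype.card (𝓞 K ⧸ v.asIdeal) - 1) - 1 ∈ v.asIdeal := by
      rw [← Ideal.Quotient.eq_zero_iff_mem, map_sub, map_pow, map_one, sub_eq_zero]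
      refine FiniteField.pow_card_sub_one_eq_one _ ?_
      rw [Ne, Ideal.Quotient.eq_zero_iff_mem]
      exact hr1
    have hρ0 : ρ ≠ 0 := by
      intro h
      rw [h, map_zero] at hVρ
      exact zero_ne_one hVρ
    have h4 : Valued.v (ρ ^ (Fintype.card (𝓞 K ⧸ v.asIdeal) - 1) - 1) <
        (1 : WithZero (Multiplicative ℤ)) := by
      have h5 := Loc.val_int K v (r ^ (Fintype.card (𝓞 K ⧸ v.asIdeal) - 1) - 1)
      have h6 := (v.valuation_lt_one_iff_mem (K := K)
        (r ^ (Fintype.card (𝓞 K ⧸ v.asIdeal) - 1) - 1)).2 hr2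
      rw [← h5, map_sub, map_pow, map_one, map_sub, map_pow, map_one, ← hρ] at h6
      exact h6
    have h7 : Valued.v ((x / ρ) ^ (Fintype.card (𝓞 K ⧸ v.asIdeal) - 1) - 1) <
        (1 : WithZero (Multiplicative ℤ)) := by
      refine Loc.pow_close _ ?_ _
      have e : x / ρ - 1 = (x - ρ) / ρ := by
        field_simp
      rw [e, map_div₀, hVρ, div_one]
      exact hr
    have e : x ^ (Fintype.card (𝓞 K ⧸ v.asIdeal) - 1) - 1 =
        ρ ^ (Fintype.card (𝓞 K ⧸ v.asIdeal) - 1) *
          ((x / ρ) ^ (Fintype.card (𝓞 K ⧸ v.asIdeal) - 1) - 1) +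
        (ρ ^ (Fintype.card (𝓞 K ⧸ v.asIdeal) - 1) - 1) := by
      rw [div_pow]
      field_simp
      ring
    rw [e]
    refine Valuation.map_add_lt _ ?_ h4
    rw [map_mul, map_pow, hVρ, one_pow, one_mul]
    exact h7

end Pool.Agent.TH954.P
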