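import Mathlib

/-!
# Places of function fields of one variable: targets
-/

set_option autoImplicit false

namespace Pool.Agent.TH954.P

/-- **Target `fin`.** A function of a function field of one variable has finitely many zeros. -/
def T_fin : Prop := ∀ (K F : Type) [Field K] [CharZero K] [Field F] [Algebra K F] (w : F),
  Transcendental K w → FiniteDimensional (IntermediateField.adjoin K {w}) F →
  {W : ValuationSubring F | (∀ c : K, algebraMap K F c ∈ W) ∧ W.valuation w < 1}.Finite

/-- **Target `sep`.** Given finitely many valuation rings of `F` over `K`, there is a function which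
is in all of them and whose residue class is in `K` only if the residue field is `K`. -/
def T_sep : Prop := ∀ (K F : Type) [Field K] [CharZero K] [Field F] [Algebra K F]
  (Z : Finset (ValuationSubring F)), (∀ W ∈ Z, ∀ c : K, algebraMap K F c ∈ W) →
  ∃ u : F, ∀ W ∈ Z, u ∈ W ∧
    ((∃ c : K, W.valuation (u - algebraMap K F c) < 1) →
      ∀ a ∈ W, ∃ c : K, W.valuation (a - algebraMap K F c) < 1)

/-- **Target `poly`.** If `w` is transcendental and `F` is algebraic over `K(w)`, then the residue
classes of `u` at the zeros of `w` are roots of one polynomial over `K`. -/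
def T_poly : Prop := ∀ (K F : Type) [Field K] [Field F] [Algebra K F] (w u : F),
  Transcendental K w → Algebra.IsAlgebraic (IntermediateField.adjoin K {w}) F →
  ∃ g : Polynomial K, g ≠ 0 ∧ ∀ W : ValuationSubring F, (∀ c : K, algebraMap K F c ∈ W) →
    W.valuation w < 1 → u ∈ W → W.valuation (Polynomial.aeval u g) < 1

end Pool.Agent.TH954.P
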