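import Pool.Agent.TH954.P.Et
import Pool.Agent.TH954.P.Stmts

/-!
# Sections of fundamental groups of open curves and rational points
-/

set_option autoImplicit false
set_option linter.unusedSectionVars false

open IsDedekindDomain NumberField WeierstrassCurve MvPolynomial
open scoped IntermediateField.algebraAdjoinAdjoin

namespace Pool.Agent.TH954.P

open Pool.Agent.TH954 Pool.Agent.W620.SC

/-- finitely generated extensions -/
lemma fd_of_fg {K F : Type} [Field K] [Field F] [Algebra K F]
    (hfg : (⊤ : IntermediateField K F).FG) (w : F)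
    (hw : Algebra.IsAlgebraic (IntermediateField.adjoin K {w}) F) :
    FiniteDimensional (IntermediateField.adjoin K {w}) F := by
  obtain ⟨T, hT⟩ := hfg
  have h1 : IntermediateField.adjoin (IntermediateField.adjoin K {w}) (T : Set F) = ⊤ := by
    rw [eq_top_iff]
    intro x _
    have h2 : x ∈ IntermediateField.adjoin K (T : Set F) := by
      rw [hT]
      exact IntermediateField.mem_top
    have h3 : IntermediateField.adjoin K (T : Set F) ≤
        (IntermediateField.adjoin (IntermediateField.adjoin K {w}) (T : Set F)).restrictScalars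
          K := by
      rw [IntermediateField.adjoin_le_iff]
      exact IntermediateField.subset_adjoin _ _
    exact h3 h2
  have h2 : FiniteDimensional (IntermediateField.adjoin K {w})
      (IntermediateField.adjoin (IntermediateField.adjoin K {w}) (T : Set F)) :=
    IntermediateField.finiteDimensional_adjoin (fun x _ => (hw.isAlgebraic x).isIntegral)
  rw [h1] at h2
  exact (IntermediateField.topEquiv (F := IntermediateField.adjoin K {w})
    (E := F)).toLinearEquiv.finiteDimensional

variable {K : Type} [Field K] [NumberField K]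

/-- the obstruction for the values of one function -/
theorem obstruct_data (R : Finset (AlgebraicClosure K)) :
    ∃ (l : ℕ) (a : K), 1 ≤ l ∧ ∀ (M : Type) [Field M] [Algebra K M] (A : SAct K M)
      (pl : ∀ v : HeightOneSpectrum (𝓞 K), Plc K M (AlgebraicClosure (v.adicCompletion K))),
      (∀ v, GeoPlc A (pl v)) → ∀ u : M, u ∈ A.fix →
      (∀ v, ∃ β ∈ R, (pl v).val u ((pl v).iot A.j β)) →
      (∃ w : M, w ^ l = u - algebraMap K M a) → ∃ v, Rat pl u v := by
  classical
  obtain ⟨R', hRR', hR'⟩ := exists_stable R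
  obtain ⟨l, a, hl, hob⟩ := obstruct (R'.filter (fun θ =>
    ∃ σ : AlgebraicClosure K ≃ₐ[K] AlgebraicClosure K, σ θ ≠ θ)) (by
      intro σ θ hθ
      rw [Finset.mem_filter] at hθ ⊢
      obtain ⟨h1, σ', h2⟩ := hθ
      refine ⟨hR' σ θ h1, σ * σ' * σ⁻¹, fun h3 => h2 ?_⟩
      have h4 : (σ * σ' * σ⁻¹) (σ θ) = σ (σ' θ) := by
        change σ (σ' (σ.symm (σ θ))) = _
        rw [σ.symm_apply_apply]
      rw [h4] at h3
      exact σ.injective h3) (fun θ hθ => (Finset.mem_filter.1 hθ).2)
  refine ⟨l, a, hl, ?_⟩
  intro M _ _ A pl hpl u huf hR ⟨w, hw⟩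
  by_cases hua : u = algebraMap K M a
  · obtain ⟨v, -⟩ := hob 1 one_ne_zero
    refine ⟨v, a, ?_⟩
    rw [hua]
    exact Plc.val_alg a
  · obtain ⟨c, hc, g, hg, hfg⟩ := A.kummer_root (f := u - algebraMap K M a)
      (sub_mem huf (A.fix.algebraMap_mem a)) (sub_ne_zero.2 hua) (n := l) (by omega) hw
    obtain ⟨v, hv⟩ := hob c hc
    refine ⟨v, ?_⟩
    have : CharZero (v.adicCompletion K) :=
      charZero_of_injective_algebraMap (algebraMap K (v.adicCompletion K)).injective
    obtain ⟨β, hβ, hval⟩ := hR v
    by_cases hfix : ∀ σ : AlgebraicClosure K ≃ₐ[K] AlgebraicClosure K, σ β = β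
    · obtain ⟨c', hc'⟩ := base_of_fixed hfix
      refine ⟨c', ?_⟩
      rw [← hc'] at hval
      rw [← ((pl v).iot A.j).commutes c']
      exact hval
    · exfalso
      push Not at hfix
      have hgl : g ^ l = (u - algebraMap K M a) * algebraMap K M c⁻¹ := by
        rw [hfg, map_inv₀]
        field_simp [(map_ne_zero (algebraMap K M)).2 hc]
      have hgW : g ∈ (pl v).W := by
        apply Plc.mem_of_pow_mem (n := l) (by omega)
        rw [hgl]
        exact mul_mem (sub_mem hval.mem ((pl v).alg_mem a)) ((pl v).alg_mem _)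
      obtain ⟨z, hz⟩ := value_base A (hpl v) hg hgW
      refine hv ((pl v).iot A.j) β (Finset.mem_filter.2 ⟨hRR' hβ, hfix⟩) z ?_
      have h1 : (pl v).val (u - algebraMap K M a)
          ((pl v).iot A.j β - algebraMap K (AlgebraicClosure (v.adicCompletion K)) a) :=
        hval.sub (Plc.val_alg a)
      have h2 : (pl v).val (algebraMap K M c * g ^ l)
          (algebraMap K (AlgebraicClosure (v.adicCompletion K)) c *
            (algebraMap (v.adicCompletion K) (AlgebraicClosure (v.adicCompletion K)) z) ^ l) :=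
        (Plc.val_alg c).mul (Plc.val.pow ⟨hgW, hz.symm⟩ l)
      rw [← hfg] at h2
      have h3 := h1.unique h2
      rw [map_sub, ((pl v).iot A.j).commutes a, h3, map_mul, map_pow,
        ← IsScalarTower.algebraMap_apply]

lemma mem_of_alg {F : Type} [Field F] [Algebra K F] {O : ValuationSubring F}
    (hO : ∀ c : K, algebraMap K F c ∈ O) {f : F} (hf : IsAlgebraic K f) : f ∈ O := by
  have h3 : IsIntegral O f := by
    obtain ⟨q, hq, hq'⟩ := hf.isIntegral
    refine ⟨q.map ((algebraMap K F).codRestrict O hO), hq.map _, ?_⟩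
    rw [Polynomial.eval₂_map]
    exact hq'
  obtain ⟨y, hy⟩ := IsIntegrallyClosed.isIntegral_iff.1 h3
  rw [← hy]
  exact y.2

lemma val_inv_lt {F : Type} [Field F] {O : ValuationSubring F} {f : F} (hf : f ∉ O) :
    O.valuation f⁻¹ < 1 := by
  have h1 : 1 < O.valuation f := not_le.1 (fun h => hf ((O.valuation_le_one_iff f).1 h))
  rw [map_inv₀]
  exact inv_lt_one_of_one_lt₀ h1

theorem punct_of_func (hfin : T_fin) (hsep : T_sep) (hpoly : T_poly)
    {F : Type} [Field F] [Algebra K F] (hfg : (⊤ : IntermediateField K F).FG)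
    (hF : ∃ t : F, Transcendental K t ∧
      Algebra.IsAlgebraic (IntermediateField.adjoin K {t}) F) (z : F) :
    ∃ D : Set (ValuationSubring F), D.Finite ∧
      (∀ O ∈ D, O ≠ ⊤ ∧ ∀ c : K, algebraMap K F c ∈ O) ∧
      ∀ U : Set (ValuationSubring F), (∀ O ∈ U, ∀ c : K, algebraMap K F c ∈ O) → Disjoint U D →
      ∀ (Ω M B : Type) [Field Ω] [Field M] [Field B] [Algebra F Ω] [Algebra K Ω]
        [IsScalarTower K F Ω] [IsAlgClosure F Ω] [Algebra F M] [Algebra K M]
        [IsScalarTower K F M] [Algebra K B] [IsAlgClosure K B] (e : M →ₐ[F] Ω),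
      unramified F Ω U ≤ e.fieldRange → ∀ (s : GalSection K F M B)
        (p : ∀ v : HeightOneSpectrum (𝓞 K), Plc K M (AlgebraicClosure (v.adicCompletion K))),
      (∀ v, s.GivenBy (v.adicCompletion K) (p v)) → (∀ v, algebraMap F M z ∉ (p v).W) →
      ∃ (O : ValuationSubring F) (v : HeightOneSpectrum (𝓞 K)), O ≠ ⊤ ∧
        (∀ c : K, algebraMap K F c ∈ O) ∧
        (∀ a ∈ O, ∃ c : K, O.valuation (a - algebraMap K F c) < 1) ∧
        (p v).W.comap (algebraMap F M) = O := by
  classical
  have hcF : CharZero F := charZero_of_injective_algebraMap (algebraMap K F).injective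
  by_cases hz : IsAlgebraic K z
  · refine ⟨∅, Set.finite_empty, fun O hO => absurd hO (Set.notMem_empty O), ?_⟩
    intro U hU hUD Ω M B _ _ _ _ _ _ _ _ _ _ _ _ e he s p hp hzp
    exfalso
    obtain ⟨l, a, hl, hob⟩ := obstruct (K := K) ∅ (fun σ θ hθ => absurd hθ (Finset.notMem_empty θ))
      (fun θ hθ => absurd hθ (Finset.notMem_empty θ))
    obtain ⟨v, -⟩ := hob 1 one_ne_zero
    apply hzp v
    exact (p v).mem_of_integral (hz.isIntegral.algebraMap)
  have hzt : Transcendental K z := hz
  set w : F := z⁻¹ with hw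
  have hwt : Transcendental K w := fun h => hz (by
    have := h.inv
    rwa [hw, inv_inv] at this)
  have hfdim : ∀ x : F, Transcendental K x →
      Algebra.IsAlgebraic (IntermediateField.adjoin K {x}) F ∧
        FiniteDimensional (IntermediateField.adjoin K {x}) F := by
    intro x hx
    have h1 : Algebra.IsAlgebraic (Algebra.adjoin K {x}) F := alg_adjoin_of_dim hF x hx
    have h2 : Algebra.IsAlgebraic (IntermediateField.adjoin K {x}) F :=
      ⟨fun y => (h1.isAlgebraic y).extendScalars
        (FaithfulSMul.algebraMap_injective (Algebra.adjoin K {x})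
          (IntermediateField.adjoin K {x}))⟩
    exact ⟨h2, fd_of_fg hfg x h2⟩
  have hZfin := hfin K F w hwt (hfdim w hwt).2
  obtain ⟨u, hu⟩ := hsep K F hZfin.toFinset (fun W hW => ((Set.Finite.mem_toFinset _).1 hW).1)
  obtain ⟨g, hg0, hg⟩ := hpoly K F w u hwt (hfdim w hwt).1
  obtain ⟨l, a, hl, hob⟩ := obstruct_data (g.aroots (AlgebraicClosure K)).toFinset
  set f : F := u - algebraMap K F a with hf
  refine ⟨{O | (∀ c : K, algebraMap K F c ∈ O) ∧ (f ∉ O ∨ f⁻¹ ∉ O)}, ?_, ?_, ?_⟩
  · by_cases hfa : IsAlgebraic K f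
    · convert Set.finite_empty
      rw [Set.eq_empty_iff_forall_notMem]
      rintro O ⟨h1, h2 | h2⟩
      · exact h2 (mem_of_alg h1 hfa)
      · exact h2 (mem_of_alg h1 hfa.inv)
    · have hft : Transcendental K f := hfa
      have hft' : Transcendental K f⁻¹ := fun h => hfa (by
        have := h.inv
        rwa [inv_inv] at this)
      refine ((hfin K F f hft (hfdim f hft).2).union (hfin K F f⁻¹ hft' (hfdim _ hft').2)).subset ?_
      rintro O ⟨h1, h2 | h2⟩
      · exact Or.inr ⟨h1, val_inv_lt h2⟩
      · refine Or.inl ⟨h1, ?_⟩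
        have := val_inv_lt h2
        rwa [inv_inv] at this
  · rintro O ⟨h1, h2⟩
    refine ⟨?_, h1⟩
    rintro rfl
    rcases h2 with h2 | h2
    · exact h2 (ValuationSubring.mem_top _)
    · exact h2 (ValuationSubring.mem_top _)
  intro U hU hUD Ω M B _ _ _ _ _ _ _ _ _ _ _ _ e he s p hp hzp
  have hΩ1 : IsAlgClosed Ω := IsAlgClosure.isAlgClosed F
  have hΩ2 : Algebra.IsAlgebraic F Ω := IsAlgClosure.isAlgebraic
  have hMalg : Algebra.IsAlgebraic F M := Algebra.IsAlgebraic.of_injective e e.injective
  have hcv : ∀ v : HeightOneSpectrum (𝓞 K), CharZero (v.adicCompletion K) := fun v =>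
    charZero_of_injective_algebraMap (algebraMap K (v.adicCompletion K)).injective
  set A := toSAct s with hA
  have hpl : ∀ v, GeoPlc A (p v) := fun v => givenBy_geo s (hp v)
  have hAF : ∀ (τ : AlgebraicClosure K ≃ₐ[K] AlgebraicClosure K) (x : F),
      A.s τ (algebraMap F M x) = algebraMap F M x :=
    fun τ x => (s.s ((eqv K B).autCongr τ)).commutes x
  -- the valuation rings of the local points
  have hKW : ∀ v (c : K), algebraMap K F c ∈ (p v).W.comap (algebraMap F M) := by
    intro v c
    rw [ValuationSubring.mem_comap, ← IsScalarTower.algebraMap_apply]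
    exact (p v).alg_mem c
  have hwW : ∀ v, ((p v).W.comap (algebraMap F M)).valuation w < 1 := fun v =>
    val_inv_lt (fun h => hzp v h)
  have hWZ : ∀ v, (p v).W.comap (algebraMap F M) ∈ hZfin.toFinset := fun v =>
    (Set.Finite.mem_toFinset _).2 ⟨hKW v, hwW v⟩
  have huW : ∀ v, algebraMap F M u ∈ (p v).W := fun v => (hu _ (hWZ v)).1
  -- nonunits have the value zero
  have hval0 : ∀ v (x : F), ((p v).W.comap (algebraMap F M)).valuation x < 1 →
      (p v).val (algebraMap F M x) 0 := by
    intro v x hx
    rcases (ValuationSubring.mem_nonunits_iff_or _).1 hx with h | h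
    · rw [h, map_zero]
      exact Plc.val_zero
    · have h1 : algebraMap F M x⁻¹ ∉ (p v).W := h
      have h2 := Plc.val_inv_of_notMem h1
      rwa [← map_inv₀, inv_inv] at h2
  have hR : ∀ v, ∃ β ∈ (g.aroots (AlgebraicClosure K)).toFinset,
      (p v).val (algebraMap F M u) ((p v).iot A.j β) := by
    intro v
    obtain ⟨c, hc⟩ := Plc.val_of_mem (huW v)
    have h4 : (p v).val (Polynomial.aeval (algebraMap F M u) g) 0 := by
      rw [Polynomial.aeval_algebraMap_apply]
      exact hval0 v _ (hg _ (hKW v) (hwW v) (hu _ (hWZ v)).1)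
    have h5 := (Plc.val_aeval hc g).unique h4
    have hs : (g.map (algebraMap K (AlgebraicClosure K))).Splits := IsAlgClosed.splits _
    have h0 : g.map (algebraMap K (AlgebraicClosure K)) ≠ 0 :=
      (Polynomial.map_ne_zero_iff (algebraMap K (AlgebraicClosure K)).injective).2 hg0
    obtain ⟨β, hβ⟩ := hs.mem_range_of_isRoot
      (i := ((p v).iot A.j : AlgebraicClosure K →+* AlgebraicClosure (v.adicCompletion K)))
      (x := c) h0 (by
        rw [Polynomial.IsRoot.def, Polynomial.eval_map, Polynomial.eval₂_map]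
        have e1 : ((p v).iot A.j : AlgebraicClosure K →+*
            AlgebraicClosure (v.adicCompletion K)).comp (algebraMap K (AlgebraicClosure K)) =
            algebraMap K (AlgebraicClosure (v.adicCompletion K)) :=
          ((p v).iot A.j).comp_algebraMap
        rw [e1]
        exact h5)
    have hβ' : (p v).iot A.j β = c := hβ
    refine ⟨β, ?_, ?_⟩
    · rw [Multiset.mem_toFinset, Polynomial.mem_aroots]
      refine ⟨hg0, ?_⟩
      have h6 : (p v).iot A.j (Polynomial.aeval β g) = 0 := by
        rw [← Polynomial.aeval_algHom_apply, hβ']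
        exact h5
      exact (map_eq_zero _).1 h6
    · rw [hβ']
      exact hc
  have hroot : ∃ w' : M, w' ^ l = algebraMap F M u - algebraMap K M a := by
    have e1 : algebraMap F M u - algebraMap K M a = algebraMap F M f := by
      rw [hf, map_sub, ← IsScalarTower.algebraMap_apply]
    rw [e1]
    by_cases hf0 : f = 0
    · refine ⟨0, ?_⟩
      rw [hf0, map_zero, zero_pow (by omega)]
    · refine exists_root_unram (K := K) (Ω := Ω) U hU e he hf0 (fun O hO => ?_) (by omega)
      have h1 : O ∉ {O : ValuationSubring F | (∀ c : K, algebraMap K F c ∈ O) ∧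
          (f ∉ O ∨ f⁻¹ ∉ O)} := fun h => Set.disjoint_left.1 hUD hO h
      by_contra hcon
      apply h1
      refine ⟨hU O hO, ?_⟩
      by_contra h2
      push Not at h2
      exact hcon h2
  obtain ⟨v, c, hvc⟩ := hob M A p hpl (algebraMap F M u) (fun τ => hAF τ u) hR hroot
  refine ⟨_, v, ?_, hKW v, ?_, rfl⟩
  · intro htop
    apply hzp v
    have : z ∈ (p v).W.comap (algebraMap F M) := by
      rw [htop]
      exact ValuationSubring.mem_top z
    exact this
  · apply (hu _ (hWZ v)).2
    refine ⟨c, (ValuationSubring.mem_nonunits_iff_or _).2 ?_⟩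
    by_cases h0 : u - algebraMap K F c = 0
    · exact Or.inl h0
    · right
      intro h3
      have h4 : algebraMap F M (u - algebraMap K F c)⁻¹ ∈ (p v).W := h3
      have h5 : (p v).val (algebraMap F M (u - algebraMap K F c)) 0 := by
        have := hvc.sub (Plc.val_alg (pl := p v) c)
        rw [sub_self] at this
        rw [map_sub, ← IsScalarTower.algebraMap_apply]
        exact this
      rw [map_inv₀] at h4
      refine Plc.notMem_of_val_inv (pl := p v)
        (x := (algebraMap F M (u - algebraMap K F c))⁻¹)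
        (inv_ne_zero ((map_ne_zero _).2 h0)) ?_ h4
      rw [inv_inv]
      exact h5

end Pool.Agent.TH954.P
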