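import Pool.Agent.TH954.P.Const
import Pool.Agent.TH954.P.Stmts2

/-!
# Sections of fundamental groups of open curves and rational points (2)
-/

set_option autoImplicit false
set_option linter.unusedSectionVars false

open IsDedekindDomain NumberField WeierstrassCurve MvPolynomial
open scoped IntermediateField.algebraAdjoinAdjoin

namespace Pool.Agent.TH954.P

open Pool.Agent.TH954 Pool.Agent.W620.SC

variable {K : Type} [Field K] [NumberField K]

lemma exists_place (K : Type) [Field K] [NumberField K] : Nonempty (HeightOneSpectrum (𝓞 K)) := by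
  obtain ⟨v, -⟩ := cheb_pow (K := K) (N := 1) le_rfl (ζ := 1) IsPrimitiveRoot.one 1 rfl
    (ι := Empty) (fun i => i.elim) (fun i => i.elim) (fun i => i.elim) (fun i => i.elim)
  exact ⟨v⟩

lemma aeval_mem {F : Type} [Field F] [Algebra K F] {O : ValuationSubring F}
    (hO : ∀ c : K, algebraMap K F c ∈ O) {u : F} (hu : u ∈ O) (h : Polynomial K) :
    Polynomial.aeval u h ∈ O := by
  rw [Polynomial.aeval_eq_sum_range]
  refine sum_mem (fun i _ => ?_)
  rw [Algebra.smul_def]
  exact mul_mem (hO _) (pow_mem hu _)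

/-- the zeros and poles of a function -/
lemma zeros_poles (hfin : T_fin) {F : Type} [Field F] [Algebra K F]
    (hfdim : ∀ x : F, Transcendental K x →
      Algebra.IsAlgebraic (IntermediateField.adjoin K {x}) F ∧
        FiniteDimensional (IntermediateField.adjoin K {x}) F) (f : F) :
    {O : ValuationSubring F | (∀ c : K, algebraMap K F c ∈ O) ∧ (f ∉ O ∨ f⁻¹ ∉ O)}.Finite := by
  by_cases hfa : IsAlgebraic K f
  · convert Set.finite_empty
    rw [Set.eq_empty_iff_forall_notMem]
    rintro O ⟨h1, h2 | h2⟩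
    · exact h2 (mem_of_alg h1 hfa)
    · exact h2 (mem_of_alg h1 hfa.inv)
  · have hft : Transcendental K f := hfa
    have hft' : Transcendental K f⁻¹ := fun h => hfa (by
      have := h.inv
      rwa [inv_inv] at this)
    refine ((hfin K F f hft (hfdim f hft).2).union (hfin K F f⁻¹ hft' (hfdim _ hft').2)).subset ?_
    rintro O ⟨h1, h2 | h2⟩
    · exact Or.inr ⟨h1, val_inv_lt h2⟩
    · refine Or.inl ⟨h1, ?_⟩
      have := val_inv_lt h2
      rwa [inv_inv] at this

theorem punct_of_funcs (hfin : T_fin) (hsep : T_sep2) (hpoly : T_poly) (hinc : T_inc)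
    (hloc : T_loc) (hgal : T_gal) (hsah : T_sah)
    {F : Type} [Field F] [Algebra K F] (hfg : (⊤ : IntermediateField K F).FG)
    (hF : ∃ t : F, Transcendental K t ∧
      Algebra.IsAlgebraic (IntermediateField.adjoin K {t}) F) (Zf : Finset F) :
    ∃ D : Set (ValuationSubring F), D.Finite ∧
      (∀ O ∈ D, O ≠ ⊤ ∧ (∀ c : K, algebraMap K F c ∈ O) ∧ ∀ z ∈ Zf, z ∈ O) ∧
      ∀ U : Set (ValuationSubring F), (∀ O ∈ U, ∀ c : K, algebraMap K F c ∈ O) → Disjoint U D →
      ∀ (Ω M B : Type) [Field Ω] [Field M] [Field B] [Algebra F Ω] [Algebra K Ω]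
        [IsScalarTower K F Ω] [IsAlgClosure F Ω] [Algebra F M] [Algebra K M]
        [IsScalarTower K F M] [Algebra K B] [IsAlgClosure K B] (e : M →ₐ[F] Ω),
      unramified F Ω U ≤ e.fieldRange → ∀ (s : GalSection K F M B)
        (p : ∀ v : HeightOneSpectrum (𝓞 K), Plc K M (AlgebraicClosure (v.adicCompletion K))),
      (∀ v, s.GivenBy (v.adicCompletion K) (p v)) → ∀ z ∈ Zf,
      (∀ v, algebraMap F M z ∉ (p v).W) →
      ∃ (O : ValuationSubring F), O ≠ ⊤ ∧ (∀ c : K, algebraMap K F c ∈ O) ∧
        (∀ a ∈ O, ∃ c : K, O.valuation (a - algebraMap K F c) < 1) ∧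
        ∀ v, (p v).W.comap (algebraMap F M) = O := by
  classical
  have hcF : CharZero F := charZero_of_injective_algebraMap (algebraMap K F).injective
  have hfdim : ∀ x : F, Transcendental K x →
      Algebra.IsAlgebraic (IntermediateField.adjoin K {x}) F ∧
        FiniteDimensional (IntermediateField.adjoin K {x}) F := by
    intro x hx
    have h1 : Algebra.IsAlgebraic (Algebra.adjoin K {x}) F := alg_adjoin_of_dim hF x hx
    have h2 : Algebra.IsAlgebraic (IntermediateField.adjoin K {x}) F :=
      ⟨fun y => (h1.isAlgebraic y).extendScalars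
        (FaithfulSMul.algebraMap_injective (Algebra.adjoin K {x})
          (IntermediateField.adjoin K {x}))⟩
    exact ⟨h2, fd_of_fg hfg x h2⟩
  have htr : ∀ (O : ValuationSubring F), (∀ c : K, algebraMap K F c ∈ O) → ∀ z, z ∉ O →
      Transcendental K z⁻¹ := by
    intro O hO z hz h
    apply hz
    have := h.inv
    rw [inv_inv] at this
    exact mem_of_alg hO this
  have hZfin : {W : ValuationSubring F | (∀ c : K, algebraMap K F c ∈ W) ∧
      ∃ z ∈ Zf, z ∉ W}.Finite := by
    refine (Zf.finite_toSet.biUnion (fun z _ => zeros_poles hfin hfdim z)).subset ?_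
    rintro W ⟨h1, z, h2, h3⟩
    rw [Set.mem_iUnion₂]
    exact ⟨z, h2, h1, Or.inl h3⟩
  obtain ⟨u, hu, hus⟩ := hsep K F hZfin.toFinset
    (fun W hW => ((Set.Finite.mem_toFinset _).1 hW).1) (by
      intro W hW W' hW' hle
      obtain ⟨h1, -⟩ := (Set.Finite.mem_toFinset _).1 hW
      obtain ⟨h2, z, hz, hzW'⟩ := (Set.Finite.mem_toFinset _).1 hW'
      have ht := htr W' h2 z hzW'
      exact hinc K F z⁻¹ ht (hfdim _ ht).1 W W' h1 (val_inv_lt (fun h => hzW' (hle h)))
        (val_inv_lt hzW') hle)
  have hgex : ∀ z : F, ∃ g : Polynomial K, g ≠ 0 ∧ ∀ W : ValuationSubring F,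
      (∀ c : K, algebraMap K F c ∈ W) → z ∉ W → u ∈ W →
      W.valuation (Polynomial.aeval u g) < 1 := by
    intro z
    by_cases hz : Transcendental K z⁻¹
    · obtain ⟨g, hg0, hg⟩ := hpoly K F z⁻¹ u hz (hfdim _ hz).1
      exact ⟨g, hg0, fun W h1 h2 h3 => hg W h1 (val_inv_lt h2) h3⟩
    · exact ⟨1, one_ne_zero, fun W h1 h2 h3 => absurd (htr W h1 z h2) hz⟩
  choose gz hgz0 hgz using hgex
  set g : Polynomial K := ∏ z ∈ Zf, gz z with hgdef
  have hg0 : g ≠ 0 := Finset.prod_ne_zero_iff.2 (fun z _ => hgz0 z)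
  have hg : ∀ W : ValuationSubring F, (∀ c : K, algebraMap K F c ∈ W) → (∃ z ∈ Zf, z ∉ W) →
      u ∈ W → W.valuation (Polynomial.aeval u g) < 1 := by
    rintro W h1 ⟨z, hz, hzW⟩ huW
    rw [hgdef, ← Finset.mul_prod_erase Zf gz hz, map_mul, map_mul]
    have h2 := hgz z W h1 hzW huW
    have h3 : W.valuation (Polynomial.aeval u (∏ x ∈ Zf.erase z, gz x)) ≤ 1 :=
      (W.valuation_le_one_iff _).2 (aeval_mem h1 huW _)
    calc _ ≤ W.valuation (Polynomial.aeval u (gz z)) * 1 := mul_le_mul_right h3 _
      _ < 1 := by rwa [mul_one]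
  obtain ⟨H, hH, hob⟩ := const_data hloc hgal hsah g
  refine ⟨{O | (∀ c : K, algebraMap K F c ∈ O) ∧ ∃ h ∈ H,
    (Polynomial.aeval u h ∉ O ∨ (Polynomial.aeval u h)⁻¹ ∉ O)}, ?_, ?_, ?_⟩
  · refine (H.finite_toSet.biUnion (fun h _ =>
      zeros_poles hfin hfdim (Polynomial.aeval u h))).subset ?_
    rintro W ⟨h1, z, h2, h3⟩
    rw [Set.mem_iUnion₂]
    exact ⟨z, h2, h1, h3⟩
  · rintro O ⟨h1, h, hh, h2⟩
    refine ⟨?_, h1, ?_⟩
    · rintro rfl
      rcases h2 with h2 | h2
      · exact h2 (ValuationSubring.mem_top _)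
      · exact h2 (ValuationSubring.mem_top _)
    · intro z hz
      by_contra hzO
      have hOZ : O ∈ hZfin.toFinset := (Set.Finite.mem_toFinset _).2 ⟨h1, z, hz, hzO⟩
      have huO : u ∈ O := (hu O hOZ).1
      have hgO := hg O h1 ⟨z, hz, hzO⟩ huO
      obtain ⟨a, b, hab⟩ : IsCoprime h g := by
        rw [Polynomial.isCoprime_iff_aeval_ne_zero_of_isAlgClosed K (AlgebraicClosure K)]
        intro β
        by_cases hβ : Polynomial.aeval β g = 0
        · left
          refine hH h hh β ?_
          rw [Multiset.mem_toFinset, Polynomial.mem_aroots]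
          exact ⟨hg0, hβ⟩
        · exact Or.inr hβ
      have hab' := congrArg (Polynomial.aeval u) hab
      rw [map_add, map_mul, map_mul, map_one] at hab'
      have hhO : Polynomial.aeval u h ∈ O := aeval_mem h1 huO h
      have h5 : O.valuation (Polynomial.aeval u b * Polynomial.aeval u g) < 1 := by
        rw [map_mul]
        calc _ ≤ 1 * O.valuation (Polynomial.aeval u g) :=
              mul_le_mul_left ((O.valuation_le_one_iff _).2 (aeval_mem h1 huO b)) _
          _ < 1 := by rwa [one_mul]
      have h6 : O.valuation (Polynomial.aeval u h) = 1 := by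
        refine le_antisymm ((O.valuation_le_one_iff _).2 hhO) ?_
        by_contra h7
        rw [not_le] at h7
        have h8 : O.valuation (Polynomial.aeval u a * Polynomial.aeval u h) < 1 := by
          rw [map_mul]
          calc _ ≤ 1 * O.valuation (Polynomial.aeval u h) :=
                mul_le_mul_left ((O.valuation_le_one_iff _).2 (aeval_mem h1 huO a)) _
            _ < 1 := by rwa [one_mul]
        have h9 := lt_of_le_of_lt (O.valuation.map_add _ _) (max_lt h8 h5)
        rw [hab', map_one] at h9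
        exact lt_irrefl _ h9
      rcases h2 with h2 | h2
      · exact h2 hhO
      · apply h2
        rw [← O.valuation_le_one_iff, map_inv₀, h6, inv_one]
  intro U hU hUD Ω M B _ _ _ _ _ _ _ _ _ _ _ _ e he s p hp z hz hzp
  have hΩ1 : IsAlgClosed Ω := IsAlgClosure.isAlgClosed F
  have hΩ2 : Algebra.IsAlgebraic F Ω := IsAlgClosure.isAlgebraic
  have hMalg : Algebra.IsAlgebraic F M := Algebra.IsAlgebraic.of_injective e e.injective
  have hcv : ∀ v : HeightOneSpectrum (𝓞 K), CharZero (v.adicCompletion K) := fun v =>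
    charZero_of_injective_algebraMap (algebraMap K (v.adicCompletion K)).injective
  set A := toSAct s with hA
  have hpl : ∀ v, GeoPlc A (p v) := fun v => givenBy_geo s (hp v)
  have hAF : ∀ (τ : AlgebraicClosure K ≃ₐ[K] AlgebraicClosure K) (x : F),
      A.s τ (algebraMap F M x) = algebraMap F M x :=
    fun τ x => (s.s ((eqv K B).autCongr τ)).commutes x
  -- the valuation rings of the local points
  have hKW : ∀ v (c : K), algebraMap K F c ∈ (p v).W.comap (algebraMap F M) := by
    intro v c
    rw [ValuationSubring.mem_comap, ← IsScalarTower.algebraMap_apply]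
    exact (p v).alg_mem c
  have hzW : ∀ v, z ∉ (p v).W.comap (algebraMap F M) := fun v => hzp v
  have hWZ : ∀ v, (p v).W.comap (algebraMap F M) ∈ hZfin.toFinset := fun v =>
    (Set.Finite.mem_toFinset _).2 ⟨hKW v, z, hz, hzW v⟩
  have huW : ∀ v, algebraMap F M u ∈ (p v).W := fun v => (hu _ (hWZ v)).1
  -- nonunits have the value zero
  have hval0 : ∀ v (x : F), ((p v).W.comap (algebraMap F M)).valuation x < 1 →
      (p v).val (algebraMap F M x) 0 := by
    intro v x hx
    rcases (ValuationSubring.mem_nonunits_iff_or _).1 hx with h | h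
    · rw [h, map_zero]
      exact Plc.val_zero
    · have h1 : algebraMap F M x⁻¹ ∉ (p v).W := h
      have h2 := Plc.val_inv_of_notMem h1
      rwa [← map_inv₀, inv_inv] at h2
  have hR : ∀ v, ∃ β ∈ (g.aroots (AlgebraicClosure K)).toFinset,
      (p v).val (algebraMap F M u) ((p v).iot A.j β) := by
    intro v
    obtain ⟨c, hc⟩ := Plc.val_of_mem (huW v)
    have h4 : (p v).val (Polynomial.aeval (algebraMap F M u) g) 0 := by
      rw [Polynomial.aeval_algebraMap_apply]
      exact hval0 v _ (hg _ (hKW v) ⟨z, hz, hzW v⟩ (hu _ (hWZ v)).1)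
    have h5 := (Plc.val_aeval hc g).unique h4
    have hs : (g.map (algebraMap K (AlgebraicClosure K))).Splits := IsAlgClosed.splits _
    have h0 : g.map (algebraMap K (AlgebraicClosure K)) ≠ 0 :=
      (Polynomial.map_ne_zero_iff (algebraMap K (AlgebraicClosure K)).injective).2 hg0
    obtain ⟨β, hβ⟩ := hs.mem_range_of_isRoot
      (i := ((p v).iot A.j : AlgebraicClosure K →+* AlgebraicClosure (v.adicCompletion K)))
      (x := c) h0 (by
        rw [Polynomial.IsRoot.def, Polynomial.eval_map, Polynomial.eval₂_map]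
        have e1 : ((p v).iot A.j : AlgebraicClosure K →+*
            AlgebraicClosure (v.adicCompletion K)).comp (algebraMap K (AlgebraicClosure K)) =
            algebraMap K (AlgebraicClosure (v.adicCompletion K)) :=
          ((p v).iot A.j).comp_algebraMap
        rw [e1]
        exact h5)
    have hβ' : (p v).iot A.j β = c := hβ
    refine ⟨β, ?_, ?_⟩
    · rw [Multiset.mem_toFinset, Polynomial.mem_aroots]
      refine ⟨hg0, ?_⟩
      have h6 : (p v).iot A.j (Polynomial.aeval β g) = 0 := by
        rw [← Polynomial.aeval_algHom_apply, hβ']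
        exact h5
      exact (map_eq_zero _).1 h6
    · rw [hβ']
      exact hc
  obtain ⟨c, hc⟩ := hob M A p hpl (algebraMap F M u) (fun τ => hAF τ u) hR (by
    intro h hh N hN
    by_cases hf0 : Polynomial.aeval u h = 0
    · refine ⟨0, ?_⟩
      rw [zero_pow (by omega), Polynomial.aeval_algebraMap_apply, hf0, map_zero]
    · rw [Polynomial.aeval_algebraMap_apply]
      refine exists_root_unram (K := K) (Ω := Ω) U hU e he hf0 (fun O hO => ?_) (by omega)
      have h1 : O ∉ {O : ValuationSubring F | (∀ c : K, algebraMap K F c ∈ O) ∧ ∃ h ∈ H,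
          (Polynomial.aeval u h ∉ O ∨ (Polynomial.aeval u h)⁻¹ ∉ O)} :=
        fun h => Set.disjoint_left.1 hUD hO h
      by_contra hcon
      apply h1
      refine ⟨hU O hO, h, hh, ?_⟩
      by_contra h2
      push Not at h2
      exact hcon h2)
  have hlt : ∀ v, ((p v).W.comap (algebraMap F M)).valuation (u - algebraMap K F c) < 1 := by
    intro v
    refine (ValuationSubring.mem_nonunits_iff_or _).2 ?_
    by_cases h0 : u - algebraMap K F c = 0
    · exact Or.inl h0
    · right
      intro h3
      have h4 : algebraMap F M (u - algebraMap K F c)⁻¹ ∈ (p v).W := h3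
      have h5 : (p v).val (algebraMap F M (u - algebraMap K F c)) 0 := by
        have := (hc v).sub (Plc.val_alg (pl := p v) c)
        rw [sub_self] at this
        rw [map_sub, ← IsScalarTower.algebraMap_apply]
        exact this
      rw [map_inv₀] at h4
      refine Plc.notMem_of_val_inv (pl := p v)
        (x := (algebraMap F M (u - algebraMap K F c))⁻¹)
        (inv_ne_zero ((map_ne_zero _).2 h0)) ?_ h4
      rw [inv_inv]
      exact h5
  obtain ⟨v0⟩ := exists_place K
  refine ⟨(p v0).W.comap (algebraMap F M), ?_, hKW v0, ?_, fun v => ?_⟩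
  · intro htop
    apply hzW v0
    rw [htop]
    exact ValuationSubring.mem_top z
  · exact (hu _ (hWZ v0)).2 ⟨c, hlt v0⟩
  · exact hus _ (hWZ v) _ (hWZ v0) c (hlt v) (hlt v0)

end Pool.Agent.TH954.P
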