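import Pool.Agent.TH954.P.Stmts

/-!
# The residue classes of a function at the zeros of another function are roots of one polynomial
-/

set_option autoImplicit false

open scoped IntermediateField.algebraAdjoinAdjoin

namespace Pool.Agent.TH954.P

namespace Poly_

lemma exists_aeval_of_mem {R S : Type} [CommRing R] [CommRing S] [Algebra R S] {x y : S}
    (h : y ∈ Algebra.adjoin R {x}) : ∃ q : Polynomial R, Polynomial.aeval x q = y := by
  rw [Algebra.adjoin_singleton_eq_range_aeval] at h
  exact h

/-- over a field of transcendence degree one, a transcendental element generates everything up to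
algebraic extensions -/
theorem alg_adjoin {K F : Type} [Field K] [Field F] [Algebra K F] {t : F}
    (hF : Algebra.IsAlgebraic (IntermediateField.adjoin K {t}) F)
    (x : F) (hx : Transcendental K x) : Algebra.IsAlgebraic (Algebra.adjoin K {x}) F := by
  have h2 : Algebra.IsAlgebraic (Algebra.adjoin K {t}) F :=
    Algebra.IsAlgebraic.trans (Algebra.adjoin K {t}) (IntermediateField.adjoin K {t}) F
  have h3 : Algebra.trdeg K F ≤ 1 := by
    have := Algebra.IsAlgebraic.trdeg_le_cardinalMk K ({t} : Set F)
    rwa [Cardinal.mk_singleton] at this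
  have h4 : AlgebraicIndependent K (fun _ : Unit => x) :=
    algebraicIndependent_unique_type_iff.2 hx
  have h5 : IsTranscendenceBasis K (fun _ : Unit => x) := by
    refine h4.isTranscendenceBasis_of_lift_trdeg_le_of_finite ?_
    simpa using h3
  have h6 := h5.isAlgebraic
  rwa [Set.range_const] at h6

end Poly_

open Poly_ in
theorem poly : T_poly := by
  intro K F _ _ _ w u hw hF
  by_cases hu : IsAlgebraic K u
  · obtain ⟨g, hg0, hg⟩ := hu
    refine ⟨g, hg0, fun W _ _ _ => ?_⟩
    rw [hg, map_zero]
    exact zero_lt_one
  · have hw0 : w ≠ 0 := by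
      rintro rfl
      exact hw isAlgebraic_zero
    obtain ⟨y, hy, r, hr0, hur⟩ :=
      ((alg_adjoin hF u hu).isAlgebraic w).exists_nonzero_eq_adjoin_mul
        (mem_nonZeroDivisors_of_ne_zero hw0)
    obtain ⟨g, hg⟩ : ∃ g : Polynomial K, Polynomial.aeval u g = (r : F) :=
      exists_aeval_of_mem r.2
    have hg0 : g ≠ 0 := by
      rintro rfl
      rw [map_zero] at hg
      exact hr0 (Subtype.ext hg.symm)
    refine ⟨g, hg0, fun W hK hwv huW => ?_⟩
    have hwW : w ∈ W := (W.valuation_le_one_iff w).1 hwv.le
    have h1 : ∀ z ∈ Algebra.adjoin K {u}, z ∈ W := by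
      intro z hz
      obtain ⟨q, rfl⟩ := exists_aeval_of_mem hz
      rw [Polynomial.aeval_eq_sum_range]
      refine sum_mem (fun i _ => ?_)
      rw [Algebra.smul_def]
      exact mul_mem (hK _) (pow_mem huW i)
    have h2 : y ∈ W := by
      obtain ⟨q, rfl⟩ := exists_aeval_of_mem hy
      rw [Polynomial.aeval_eq_sum_range]
      refine sum_mem (fun i _ => ?_)
      rw [Algebra.smul_def]
      exact mul_mem (h1 _ (q.coeff i).2) (pow_mem hwW i)
    have h3 : Polynomial.aeval u g = w * y := by
      rw [hg]
      exact hur.symm
    rw [h3, map_mul]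
    calc W.valuation w * W.valuation y ≤ W.valuation w * 1 := by
          gcongr
          exact (W.valuation_le_one_iff y).2 h2
      _ = W.valuation w := mul_one _
      _ < 1 := hwv

end Pool.Agent.TH954.P
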