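import Mathlib
import Pool.Agent.TH954.P.Stmts2

/-!
# Sah's lemma for roots of unity
-/

set_option autoImplicit false

namespace Pool.Agent.TH954.P

theorem sah : T_sah := by
  intro K _ _ N hN ζ hζ c r hc hr hfix τ t hτ
  haveI : NeZero N := ⟨by omega⟩
  have hN0 : N ≠ 0 := by omega
  have hcne : algebraMap K (AlgebraicClosure K) c ≠ 0 := by
    simpa using hc
  have hr0 : r ≠ 0 := by
    rintro rfl
    rw [zero_pow hN0] at hr
    exact hcne hr.symm
  -- every root of unity is a power of ζ, so τ acts by the power t + 1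
  have hroot : ∀ w : AlgebraicClosure K, w ^ N = 1 → ∃ i : ℕ, ζ ^ i = w := by
    intro w hw
    obtain ⟨i, _, hi⟩ := hζ.eq_pow_of_pow_eq_one hw
    exact ⟨i, hi⟩
  have hτw : ∀ w : AlgebraicClosure K, w ^ N = 1 → τ w = w ^ (t + 1) := by
    intro w hw
    obtain ⟨i, rfl⟩ := hroot w hw
    rw [map_pow, hτ, ← pow_mul, ← pow_mul, mul_comm]
  have hσr : ∀ σ : AlgebraicClosure K ≃ₐ[K] AlgebraicClosure K, (σ r / r) ^ N = 1 := by
    intro σ
    rw [div_pow, ← map_pow, hr, AlgEquiv.commutes, div_self hcne]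
  have hcomm : ∀ σ : AlgebraicClosure K ≃ₐ[K] AlgebraicClosure K, σ (τ r) = τ (σ r) := by
    intro σ
    have hσζ : (σ ζ) ^ N = 1 := by rw [← map_pow, hζ.pow_eq_one, map_one]
    have h1 : τ (σ ζ) = σ (τ ζ) := by
      rw [hτw _ hσζ, hτ, map_pow]
    have h2 : (τ.trans σ).symm (τ (σ ζ)) = ζ := by
      rw [h1, AlgEquiv.symm_apply_eq]
      rfl
    have h3 := hfix ((σ.trans τ).trans (τ.trans σ).symm) (by
      simpa [AlgEquiv.trans_apply] using h2)
    have h4 : (τ.trans σ).symm (τ (σ r)) = r := by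
      simpa [AlgEquiv.trans_apply] using h3
    rw [AlgEquiv.symm_apply_eq] at h4
    exact h4.symm
  set v : AlgebraicClosure K := τ r / r with hv
  have hvN : v ^ N = 1 := hσr τ
  have hv0 : v ≠ 0 := by
    intro h
    rw [h, zero_pow hN0] at hvN
    exact zero_ne_one hvN
  have hτr : τ r = v * r := by rw [hv]; field_simp
  have key : ∀ σ : AlgebraicClosure K ≃ₐ[K] AlgebraicClosure K, σ (r ^ t / v) = r ^ t / v := by
    intro σ
    set w : AlgebraicClosure K := σ r / r with hw
    have hwN : w ^ N = 1 := hσr σ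
    have hw0 : w ≠ 0 := by
      intro h
      rw [h, zero_pow hN0] at hwN
      exact zero_ne_one hwN
    have hσr' : σ r = w * r := by rw [hw]; field_simp
    have h5 := hcomm σ
    rw [hτr, hσr', map_mul, map_mul, hσr', hτr, hτw w hwN] at h5
    -- σ v * (w * r) = w ^ (t+1) * (v * r)
    have h6 : σ v = w ^ t * v := by
      have h7 : (w * r) ≠ 0 := mul_ne_zero hw0 hr0
      apply mul_right_cancel₀ h7
      rw [h5]; ring
    rw [map_div₀, map_pow, hσr', h6, mul_pow]
    field_simp
  have hmem : r ^ t / v ∈ (⊥ : IntermediateField K (AlgebraicClosure K)) := by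
    rw [InfiniteGalois.mem_bot_iff_fixed]
    exact key
  rw [IntermediateField.mem_bot] at hmem
  obtain ⟨y, hy⟩ := hmem
  refine ⟨y, ?_⟩
  apply (algebraMap K (AlgebraicClosure K)).injective
  rw [map_pow, hy, div_pow, hvN, div_one, ← pow_mul, mul_comm, pow_mul, hr, map_pow]

end Pool.Agent.TH954.P
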