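import Mathlib
import Pool.Agent.TH954.P.Stmts

/-!
# A function separating rational and non-rational places (target `sep`)

Approximation at finitely many valuation rings containing a field of characteristic zero.
-/

set_option autoImplicit false

namespace Pool.Agent.TH954.P

namespace SepAux

variable {K F : Type} [Field K] [CharZero K] [Field F] [Algebra K F]

/-- The residue class of `u` at `W` is in `K`. -/
def IsK (K : Type) {F : Type} [Field K] [Field F] [Algebra K F] (W : ValuationSubring F) (u : F) :
    Prop := ∃ c : K, W.valuation (u - algebraMap K F c) < 1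

omit [CharZero K] in
lemma val_const_le (W : ValuationSubring F) (hW : ∀ c : K, algebraMap K F c ∈ W) (c : K) :
    W.valuation (algebraMap K F c) ≤ 1 := (W.valuation_le_one_iff _).2 (hW c)

omit [CharZero K] in
lemma val_const_eq (W : ValuationSubring F) (hW : ∀ c : K, algebraMap K F c ∈ W) (c : K)
    (hc : c ≠ 0) : W.valuation (algebraMap K F c) = 1 := by
  apply le_antisymm (val_const_le W hW c)
  have h1 := val_const_le W hW c⁻¹
  have h2 : W.valuation (algebraMap K F c) * W.valuation (algebraMap K F c⁻¹) = 1 := by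
    rw [← map_mul, ← map_mul, mul_inv_cancel₀ hc, map_one, map_one]
  calc (1 : W.ValueGroup) = W.valuation (algebraMap K F c) * W.valuation (algebraMap K F c⁻¹) :=
        h2.symm
    _ ≤ W.valuation (algebraMap K F c) * 1 := mul_le_mul_right h1 _
    _ = W.valuation (algebraMap K F c) := mul_one _

omit [CharZero K] in
lemma IsK.sub {W : ValuationSubring F} {u v : F} (hu : IsK K W u) (hv : IsK K W v) :
    IsK K W (u - v) := by
  obtain ⟨c, hc⟩ := hu
  obtain ⟨d, hd⟩ := hv
  refine ⟨c - d, ?_⟩
  have : u - v - algebraMap K F (c - d) = (u - algebraMap K F c) - (v - algebraMap K F d) := by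
    rw [map_sub]; ring
  rw [this]
  exact lt_of_le_of_lt (Valuation.map_sub _ _ _) (max_lt hc hd)

omit [CharZero K] in
lemma IsK.smul {W : ValuationSubring F} (hW : ∀ c : K, algebraMap K F c ∈ W) {u : F}
    (hu : IsK K W u) (d : K) : IsK K W (algebraMap K F d * u) := by
  obtain ⟨c, hc⟩ := hu
  refine ⟨d * c, ?_⟩
  have : algebraMap K F d * u - algebraMap K F (d * c)
      = algebraMap K F d * (u - algebraMap K F c) := by
    rw [map_mul]; ring
  rw [this, map_mul]
  calc W.valuation (algebraMap K F d) * W.valuation (u - algebraMap K F c)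
      ≤ 1 * W.valuation (u - algebraMap K F c) := mul_le_mul_left (val_const_le W hW d) _
    _ = W.valuation (u - algebraMap K F c) := one_mul _
    _ < 1 := hc

/-- One valuation ring. -/
lemma step1 (Z : Finset (ValuationSubring F)) (hZ : ∀ W ∈ Z, ∀ c : K, algebraMap K F c ∈ W)
    (W : ValuationSubring F) (hW : W ∈ Z) (t : F) (ht : t ∈ W) (htK : ¬ IsK K W t) :
    ∃ u : F, (∀ W' ∈ Z, u ∈ W') ∧ ¬ IsK K W u := by
  classical
  have hfin : (⋃ W' ∈ Z, {b : ℕ | W'.valuation (t - algebraMap K F (b : K)) < 1}).Finite := by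
    apply Set.Finite.biUnion Z.finite_toSet
    intro W' hW'
    apply Set.Subsingleton.finite
    intro b hb b' hb'
    by_contra hne
    simp only [Set.mem_ofPred_eq] at hb hb'
    have h1 : W'.valuation (algebraMap K F ((b : K) - (b' : K))) = 1 := by
      apply val_const_eq W' (hZ W' hW')
      intro h
      exact hne (Nat.cast_injective (sub_eq_zero.1 h))
    have h2 : algebraMap K F ((b : K) - (b' : K))
        = (t - algebraMap K F (b' : K)) - (t - algebraMap K F (b : K)) := by
      rw [map_sub]; ring
    rw [h2] at h1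
    have h3 := lt_of_le_of_lt (Valuation.map_sub W'.valuation _ _) (max_lt hb' hb)
    rw [h1] at h3
    exact lt_irrefl _ h3
  obtain ⟨b, hb⟩ := hfin.exists_notMem
  simp only [Set.mem_iUnion, Set.mem_ofPred_eq, not_exists, not_lt] at hb
  set s : F := t - algebraMap K F (b : K) with hs
  have hsW : s ∈ W := sub_mem ht (hZ W hW _)
  have hs0 : s ≠ 0 := by
    intro h0
    have := hb W hW
    rw [h0, map_zero] at this
    exact absurd this (not_le.2 zero_lt_one)
  have hs1 : W.valuation s = 1 := le_antisymm ((W.valuation_le_one_iff _).2 hsW) (hb W hW)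
  refine ⟨s⁻¹, ?_, ?_⟩
  · intro W' hW'
    rw [← W'.valuation_le_one_iff, map_inv₀]
    exact inv_le_one_of_one_le₀ (hb W' hW')
  · rintro ⟨c, hc⟩
    apply htK
    have hc0 : c ≠ 0 := by
      rintro rfl
      rw [map_zero, sub_zero, map_inv₀, hs1, inv_one] at hc
      exact lt_irrefl _ hc
    refine ⟨(b : K) + c⁻¹, ?_⟩
    have hcF : algebraMap K F c ≠ 0 := by
      rw [Ne, map_eq_zero]; exact hc0
    have h1 : t - algebraMap K F ((b : K) + c⁻¹)
        = -(s * algebraMap K F c⁻¹ * (s⁻¹ - algebraMap K F c)) := by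
      have : t = s + algebraMap K F (b : K) := by rw [hs]; ring
      rw [this, map_add, map_inv₀]
      field_simp
      ring
    rw [h1, Valuation.map_neg, map_mul, map_mul, hs1,
      val_const_eq W (hZ W hW) c⁻¹ (inv_ne_zero hc0), one_mul, one_mul]
    exact hc

/-- Combination of two functions. -/
lemma step2 (Z : Finset (ValuationSubring F)) (hZ : ∀ W ∈ Z, ∀ c : K, algebraMap K F c ∈ W)
    (u u' : F) :
    ∃ B : ℕ, ∀ W ∈ Z, IsK K W (u + algebraMap K F (B : K) * u') → IsK K W u ∧ IsK K W u' := by
  classical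
  have hfin : (⋃ W ∈ Z, {B : ℕ | IsK K W (u + algebraMap K F (B : K) * u') ∧
      ¬ (IsK K W u ∧ IsK K W u')}).Finite := by
    apply Set.Finite.biUnion Z.finite_toSet
    intro W hW
    apply Set.Subsingleton.finite
    rintro B ⟨hB, hB2⟩ B' ⟨hB', -⟩
    by_contra hne
    apply hB2
    have hd : (B : K) - (B' : K) ≠ 0 := by
      intro h
      exact hne (Nat.cast_injective (sub_eq_zero.1 h))
    have h1 : IsK K W u' := by
      have h2 := (hB.sub hB').smul (hZ W hW) ((B : K) - (B' : K))⁻¹
      have h3 : algebraMap K F ((B : K) - (B' : K))⁻¹ *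
          (u + algebraMap K F (B : K) * u' - (u + algebraMap K F (B' : K) * u')) = u' := by
        have h4 : u + algebraMap K F (B : K) * u' - (u + algebraMap K F (B' : K) * u')
            = algebraMap K F ((B : K) - (B' : K)) * u' := by
          rw [map_sub]; ring
        rw [h4, ← mul_assoc, ← map_mul, inv_mul_cancel₀ hd, map_one, one_mul]
      rwa [h3] at h2
    refine ⟨?_, h1⟩
    have h2 := hB.sub (h1.smul (hZ W hW) (B : K))
    rwa [add_sub_cancel_right] at h2
  obtain ⟨B, hB⟩ := hfin.exists_notMem
  simp only [Set.mem_iUnion, Set.mem_ofPred_eq, not_exists, not_and] at hB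
  exact ⟨B, fun W hW h => by
    have := hB W hW h
    tauto⟩

end SepAux

open SepAux in
theorem sep : T_sep := by
  intro K F _ _ _ _ Z hZ
  classical
  have key : ∀ S : Finset (ValuationSubring F), S ⊆ Z → ∃ u : F, (∀ W ∈ Z, u ∈ W) ∧
      ∀ W ∈ S, IsK K W u → ∀ a ∈ W, IsK K W a := by
    intro S
    induction S using Finset.induction_on with
    | empty =>
      intro _
      exact ⟨0, fun W _ => W.zero_mem, fun W hW => absurd hW (Finset.notMem_empty _)⟩
    | insert W0 S hW0 ih =>
      intro hS
      obtain ⟨u, hu, hu'⟩ := ih (fun W hW => hS (Finset.mem_insert_of_mem hW))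
      have hW0Z : W0 ∈ Z := hS (Finset.mem_insert_self _ _)
      by_cases hrat : ∀ a ∈ W0, IsK K W0 a
      · refine ⟨u, hu, fun W hW => ?_⟩
        rcases Finset.mem_insert.1 hW with rfl | hW
        · exact fun _ => hrat
        · exact hu' W hW
      · push Not at hrat
        obtain ⟨t, ht, htK⟩ := hrat
        obtain ⟨v, hv, hvK⟩ := step1 Z hZ W0 hW0Z t ht htK
        obtain ⟨B, hB⟩ := step2 Z hZ u v
        refine ⟨u + algebraMap K F (B : K) * v, ?_, ?_⟩
        · intro W hW
          exact W.add_mem _ _ (hu W hW) (W.mul_mem _ _ (hZ W hW _) (hv W hW))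
        · intro W hW hK
          rcases Finset.mem_insert.1 hW with rfl | hW'
          · exact absurd (hB W hW0Z hK).2 hvK
          · exact hu' W hW' (hB W (hS hW) hK).1
  obtain ⟨u, hu, hu'⟩ := key Z (Finset.Subset.refl _)
  exact ⟨u, fun W hW => ⟨hu W hW, fun h => hu' W hW h⟩⟩

end Pool.Agent.TH954.P
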