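import Mathlib
import Pool.Agent.TH954.P.Sep
import Pool.Agent.TH954.P.Stmts2

/-!
# A function separating rational places (target `sep2`)

Approximation at finitely many pairwise incomparable valuation rings containing a field of
characteristic zero.
-/

set_option autoImplicit false

namespace Pool.Agent.TH954.P

namespace Sep2Aux

open SepAux

variable {K F : Type} [Field K] [CharZero K] [Field F] [Algebra K F]

/-- The residue classes of `u` at `W` and `W'` are the same element of `K`. -/
def IsP (K : Type) {F : Type} [Field K] [Field F] [Algebra K F] (W W' : ValuationSubring F)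
    (u : F) : Prop :=
  ∃ c : K, W.valuation (u - algebraMap K F c) < 1 ∧ W'.valuation (u - algebraMap K F c) < 1

omit [CharZero K] in
lemma isP_self {W : ValuationSubring F} {u : F} : IsP K W W u ↔ IsK K W u := by
  unfold IsP IsK
  simp

omit [CharZero K] in
lemma IsP.sub {W W' : ValuationSubring F} {u v : F} (hu : IsP K W W' u) (hv : IsP K W W' v) :
    IsP K W W' (u - v) := by
  obtain ⟨c, hc, hc'⟩ := hu
  obtain ⟨d, hd, hd'⟩ := hv
  refine ⟨c - d, ?_⟩
  have : u - v - algebraMap K F (c - d) = (u - algebraMap K F c) - (v - algebraMap K F d) := by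
    rw [map_sub]; ring
  rw [this]
  exact ⟨lt_of_le_of_lt (Valuation.map_sub _ _ _) (max_lt hc hd),
    lt_of_le_of_lt (Valuation.map_sub _ _ _) (max_lt hc' hd')⟩

omit [CharZero K] in
lemma IsP.smul {W W' : ValuationSubring F} (hW : ∀ c : K, algebraMap K F c ∈ W)
    (hW' : ∀ c : K, algebraMap K F c ∈ W') {u : F}
    (hu : IsP K W W' u) (d : K) : IsP K W W' (algebraMap K F d * u) := by
  obtain ⟨c, hc, hc'⟩ := hu
  refine ⟨d * c, ?_⟩
  have : algebraMap K F d * u - algebraMap K F (d * c)
      = algebraMap K F d * (u - algebraMap K F c) := by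
    rw [map_mul]; ring
  rw [this, map_mul, map_mul]
  constructor
  · calc W.valuation (algebraMap K F d) * W.valuation (u - algebraMap K F c)
        ≤ 1 * W.valuation (u - algebraMap K F c) := mul_le_mul_left (val_const_le W hW d) _
      _ = W.valuation (u - algebraMap K F c) := one_mul _
      _ < 1 := hc
  · calc W'.valuation (algebraMap K F d) * W'.valuation (u - algebraMap K F c)
        ≤ 1 * W'.valuation (u - algebraMap K F c) := mul_le_mul_left (val_const_le W' hW' d) _
      _ = W'.valuation (u - algebraMap K F c) := one_mul _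
      _ < 1 := hc'

/-- One pair of valuation rings. -/
lemma pair1 (Z : Finset (ValuationSubring F)) (hZ : ∀ W ∈ Z, ∀ c : K, algebraMap K F c ∈ W)
    (W W' : ValuationSubring F) (hW : W ∈ Z) (hW' : W' ∈ Z) (hne : ¬ W ≤ W') :
    ∃ u : F, (∀ V ∈ Z, u ∈ V) ∧ ¬ IsP K W W' u := by
  classical
  obtain ⟨t, ht, htW'⟩ := SetLike.not_le_iff_exists.1 hne
  have hfin : (⋃ V ∈ Z, {b : ℕ | V.valuation (t - algebraMap K F (b : K)) < 1}).Finite := by
    apply Set.Finite.biUnion Z.finite_toSet
    intro V hV
    apply Set.Subsingleton.finite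
    intro b hb b' hb'
    by_contra hne
    simp only [Set.mem_ofPred_eq] at hb hb'
    have h1 : V.valuation (algebraMap K F ((b : K) - (b' : K))) = 1 := by
      apply val_const_eq V (hZ V hV)
      intro h
      exact hne (Nat.cast_injective (sub_eq_zero.1 h))
    have h2 : algebraMap K F ((b : K) - (b' : K))
        = (t - algebraMap K F (b' : K)) - (t - algebraMap K F (b : K)) := by
      rw [map_sub]; ring
    rw [h2] at h1
    have h3 := lt_of_le_of_lt (Valuation.map_sub V.valuation _ _) (max_lt hb' hb)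
    rw [h1] at h3
    exact lt_irrefl _ h3
  obtain ⟨b, hb⟩ := hfin.exists_notMem
  simp only [Set.mem_iUnion, Set.mem_ofPred_eq, not_exists, not_lt] at hb
  set s : F := t - algebraMap K F (b : K) with hs
  have hsW : s ∈ W := sub_mem ht (hZ W hW _)
  have hsW' : s ∉ W' := by
    intro h
    apply htW'
    have : t = s + algebraMap K F (b : K) := by rw [hs]; ring
    rw [this]
    exact W'.add_mem _ _ h (hZ W' hW' _)
  have hs1 : W.valuation s = 1 := le_antisymm ((W.valuation_le_one_iff _).2 hsW) (hb W hW)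
  have hs2 : 1 < W'.valuation s := by
    by_contra h
    exact hsW' ((W'.valuation_le_one_iff _).1 (not_lt.1 h))
  refine ⟨s⁻¹, ?_, ?_⟩
  · intro V hV
    rw [← V.valuation_le_one_iff, map_inv₀]
    exact inv_le_one_of_one_le₀ (hb V hV)
  · rintro ⟨c, hc, hc'⟩
    have h1 : W'.valuation s⁻¹ < 1 := by
      rw [map_inv₀]
      exact inv_lt_one_of_one_lt₀ hs2
    have hc0 : c = 0 := by
      by_contra h0
      have h2 := val_const_eq W' (hZ W' hW') c h0
      have h3 : algebraMap K F c = s⁻¹ - (s⁻¹ - algebraMap K F c) := by ring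
      rw [h3] at h2
      have h4 := lt_of_le_of_lt (Valuation.map_sub W'.valuation _ _) (max_lt h1 hc')
      rw [h2] at h4
      exact lt_irrefl _ h4
    rw [hc0, map_zero, sub_zero, map_inv₀, hs1, inv_one] at hc
    exact lt_irrefl _ hc

/-- Combination of two functions. -/
lemma pair2 (Z : Finset (ValuationSubring F)) (hZ : ∀ W ∈ Z, ∀ c : K, algebraMap K F c ∈ W)
    (u u' : F) :
    ∃ B : ℕ, ∀ W ∈ Z, ∀ W' ∈ Z, IsP K W W' (u + algebraMap K F (B : K) * u') →
      IsP K W W' u ∧ IsP K W W' u' := by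
  classical
  have hfin : (⋃ W ∈ Z, ⋃ W' ∈ Z, {B : ℕ | IsP K W W' (u + algebraMap K F (B : K) * u') ∧
      ¬ (IsP K W W' u ∧ IsP K W W' u')}).Finite := by
    apply Set.Finite.biUnion Z.finite_toSet
    intro W hW
    apply Set.Finite.biUnion Z.finite_toSet
    intro W' hW'
    apply Set.Subsingleton.finite
    rintro B ⟨hB, hB2⟩ B' ⟨hB', -⟩
    by_contra hne
    apply hB2
    have hd : (B : K) - (B' : K) ≠ 0 := by
      intro h
      exact hne (Nat.cast_injective (sub_eq_zero.1 h))
    have h1 : IsP K W W' u' := by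
      have h2 := (hB.sub hB').smul (hZ W hW) (hZ W' hW') ((B : K) - (B' : K))⁻¹
      have h3 : algebraMap K F ((B : K) - (B' : K))⁻¹ *
          (u + algebraMap K F (B : K) * u' - (u + algebraMap K F (B' : K) * u')) = u' := by
        have h4 : u + algebraMap K F (B : K) * u' - (u + algebraMap K F (B' : K) * u')
            = algebraMap K F ((B : K) - (B' : K)) * u' := by
          rw [map_sub]; ring
        rw [h4, ← mul_assoc, ← map_mul, inv_mul_cancel₀ hd, map_one, one_mul]
      rwa [h3] at h2
    refine ⟨?_, h1⟩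
    have h2 := hB.sub (h1.smul (hZ W hW) (hZ W' hW') (B : K))
    rwa [add_sub_cancel_right] at h2
  obtain ⟨B, hB⟩ := hfin.exists_notMem
  simp only [Set.mem_iUnion, Set.mem_ofPred_eq, not_exists, not_and] at hB
  exact ⟨B, fun W hW W' hW' h => by
    have := hB W hW W' hW' h
    tauto⟩

end Sep2Aux

open SepAux Sep2Aux in
theorem sep2 : T_sep2 := by
  intro K F _ _ _ _ Z hZ hinc
  classical
  have key : ∀ S : Finset (ValuationSubring F × ValuationSubring F), S ⊆ Z ×ˢ Z → ∃ u : F,
      (∀ W ∈ Z, u ∈ W ∧ (IsK K W u → ∀ a ∈ W, IsK K W a)) ∧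
      ∀ q ∈ S, q.1 ≠ q.2 → ¬ IsP K q.1 q.2 u := by
    intro S
    induction S using Finset.induction_on with
    | empty =>
      intro _
      obtain ⟨u, hu⟩ := sep K F Z hZ
      exact ⟨u, hu, fun q hq => absurd hq (Finset.notMem_empty _)⟩
    | insert q0 S hq0 ih =>
      intro hS
      obtain ⟨u, hu, hu'⟩ := ih (fun q hq => hS (Finset.mem_insert_of_mem hq))
      have hq0Z := Finset.mem_product.1 (hS (Finset.mem_insert_self q0 S))
      by_cases hne : q0.1 = q0.2
      · refine ⟨u, hu, fun q hq => ?_⟩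
        rcases Finset.mem_insert.1 hq with rfl | hq
        · exact fun h => absurd hne h
        · exact hu' q hq
      · have hnle : ¬ q0.1 ≤ q0.2 := fun h => hne (hinc _ hq0Z.1 _ hq0Z.2 h)
        obtain ⟨v, hv, hvP⟩ := pair1 Z hZ q0.1 q0.2 hq0Z.1 hq0Z.2 hnle
        obtain ⟨B, hB⟩ := pair2 Z hZ u v
        refine ⟨u + algebraMap K F (B : K) * v, ?_, ?_⟩
        · intro W hW
          refine ⟨W.add_mem _ _ (hu W hW).1 (W.mul_mem _ _ (hZ W hW _) (hv W hW)), ?_⟩
          intro hK
          exact (hu W hW).2 (isP_self.1 (hB W hW W hW (isP_self.2 hK)).1)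
        · intro q hq hne' hP
          rcases Finset.mem_insert.1 hq with rfl | hq'
          · exact hvP (hB q.1 hq0Z.1 q.2 hq0Z.2 hP).2
          · have hqZ := Finset.mem_product.1 (hS hq)
            exact hu' q hq' hne' (hB q.1 hqZ.1 q.2 hqZ.2 hP).1
  obtain ⟨u, hu, hu'⟩ := key (Z ×ˢ Z) (Finset.Subset.refl _)
  refine ⟨u, hu, ?_⟩
  intro W hW W' hW' c hc hc'
  by_contra hne
  exact hu' (W, W') (Finset.mem_product.2 ⟨hW, hW'⟩) hne ⟨c, hc, hc'⟩

end Pool.Agent.TH954.P
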