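import Pool.Agent.TH954.P.Final2
import Pool.Agent.TH954.P.Fin
import Pool.Agent.TH954.P.Poly
import Pool.Agent.TH954.P.Sep2
import Pool.Agent.TH954.P.Inc
import Pool.Agent.TH954.P.Loc
import Pool.Agent.TH954.P.Gal
import Pool.Agent.TH954.P.Sah

/-!
# Sections of fundamental groups of open curves and rational points: the theorem (3)
-/

set_option autoImplicit false
set_option linter.unusedSectionVars false

open IsDedekindDomain NumberField WeierstrassCurve MvPolynomial

namespace Pool.Agent.TH954.P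

open Pool.Agent.TH954 Pool.Agent.W620.SC

open scoped Classical in
theorem punct2_main
    (K : Type) [Field K] [NumberField K] (E : WeierstrassCurve K)
    (hE : ShortIntegral E) (hO : SmallRank E) (M0 : ℕ) (hM1 : 1 ≤ M0) (hM : ShaKilledBy E M0)
    (n : ℕ) (S : Set (MvPolynomial (Fin n × Fin 3) K)) (hS : ∀ f ∈ S, ∃ d, MultiHom d f)
    (hX : {y : Fin n → E.toAffine.Point | OnX S (fun i => crd (y i))}.Finite)
    (F : Type) [Field F] [Algebra K F] (hfg : (⊤ : IntermediateField K F).FG)
    (hF : ∃ t : F, Transcendental K t ∧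
      Algebra.IsAlgebraic (IntermediateField.adjoin K {t}) F)
    (P : Fin n → (E.baseChange F).toAffine.Point)
    (hPS : OnX S (fun i => crd (P i)))
    (hPn : ∃ i, ∀ y : E.toAffine.Point, P i ≠ locHom (L := F) E y) :
    ∃ D : Set (ValuationSubring F), D.Finite ∧
      (∀ O ∈ D, O ≠ ⊤ ∧ (∀ c : K, algebraMap K F c ∈ O) ∧
        ∃ a ∈ O, ∀ c : K, ¬ O.valuation (a - algebraMap K F c) < 1) ∧
      ∀ C : Set (ValuationSubring F), (∀ O ∈ C, ∀ c : K, algebraMap K F c ∈ O) → Disjoint C D →
      ∀ (Ω M B : Type) [Field Ω] [Field M] [Field B] [Algebra F Ω] [Algebra K Ω]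
        [IsScalarTower K F Ω] [IsAlgClosure F Ω] [Algebra F M] [Algebra K M]
        [IsScalarTower K F M] [Algebra K B] [IsAlgClosure K B] (e : M →ₐ[F] Ω),
      unramified F Ω C ≤ e.fieldRange → ∀ (s : GalSection K F M B)
        (p : ∀ v : HeightOneSpectrum (𝓞 K), Plc K M (AlgebraicClosure (v.adicCompletion K))),
      (∀ v, s.GivenBy (v.adicCompletion K) (p v)) →
      ∃ (x : Fin n → E.toAffine.Point) (O : ValuationSubring F),
        OnX S (fun i => crd (x i)) ∧
        (∀ v i, (p v).Spec (fun j => algebraMap F M (crd (P i) j))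
          (fun j => algebraMap K (AlgebraicClosure (v.adicCompletion K)) (crd (x i) j))) ∧
        (∀ i, s.SameKummer E (P i) (x i)) ∧
        O ≠ ⊤ ∧ (∀ c : K, algebraMap K F c ∈ O) ∧
        (∀ a ∈ O, ∃ c : K, O.valuation (a - algebraMap K F c) < 1) ∧
        ∀ v, (p v).W.comap (algebraMap F M) = O :=
  punct2_main0 fin sep2 poly inc loc gal sah K E hE hO M0 hM1 hM n S hS hX F hfg hF P hPS hPn

end Pool.Agent.TH954.P
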